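import Pool.Agent.Lib.MP_17a322_ntTB.Defs
import Pool.Agent.Lib.MP_17a322_ntTA.D0
import Pool.Agent.Lib.MP_17a322_ntTA.E0

/-!
Leaf D3: `n + 1` divisors without common point on the generic fibre are far apart, up to a vertical term.

PROOF. `D3_gen` (generalises `B4_gen` of T1 from two forms to a family of coordinates): `J = IΩ h Ω ⊔ span {X (σ j, 0)}` has no zero,
so `B2_null` gives all monomials of large block degrees; back to `k` as in `B4_gen` (`B1_mem` for the family `h` together with the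
`X (σ j, 0)`, i.e. `Fin.append` / `Sum`; see the proof of `B4_gen`), and multihomogeneous components (as `B3_dec`, for a family). For
`f ∈ MH k m (M + 1)`, `M ≥ M₁` (`M + 1` means `fun l => M l + 1`): `f - ∑ j, X (σ j, 0) * A j ∈ Ik h` with `A j ∈ MH k m (fun l => if l = σ j then M l else M l + 1)`.
`D3_far`: as `D0_two` and `E0_min` of T1 (same proof with a sum of `s` terms instead of two): `P₀` generic over an algebraically closed `Ω`, `x = A.x P₀`, `k = kx K x`,
`C4_down`, `D3_gen` for the monomials `μ` of multidegree `M₁ + 1`, `C2_lift`, `C3_tr`: forms `R_μ`, `ρ₀` with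
`R_μ(P) (ρ₀(P) μ(y) - ∑ j, y_(σ j, 0) A'_(μ, j)(P, y)) = 0` on `X`; `R = ρ₀ * ∏ μ, R_μ`. At a point of `X` over `K` with `R(P) ≠ 0` take the `μ` of `D0_max`:
`v(ρ₀(P)) ∏ l, |y_l| ^ (M₁ l + 1) ≤ C |x| ^ D ∑ j, v(y (σ j) 0) ∏ l, |y_l| ^ (..)`, divide: for some `j`:
`v(ρ₀(P)) |y_(σ j)| ≤ s C |x| ^ D v(y (σ j) 0)`; take logarithms, `LR ρ₀ ≤ LR R + C` (`E0_LR_mul`, `E0_LR_ge`).
-/

set_option autoImplicit false

universe u

namespace UTB

open MvPolynomial UTA
open Pool.Agent.Lib.MP_17a322_nt.VA Pool.Agent.Lib.MP_17a322_nt.SL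

private def D3_w (q m : ℕ) : Fin q × Fin (m + 1) → (Fin q → ℕ) := fun z => Pi.single z.1 1

private theorem D3_weight {q m : ℕ} (μ : Fin q × Fin (m + 1) →₀ ℕ) :
    Finsupp.weight (D3_w q m) μ = fun i => ∑ l, μ (i, l) := by
  funext i
  rw [Finsupp.weight_apply, Finsupp.sum_fintype μ (fun z c => c • D3_w q m z) (fun z => zero_smul ℕ (D3_w q m z)),
    Finset.sum_apply, Fintype.sum_prod_type, Finset.sum_eq_single i]
  · refine Finset.sum_congr rfl fun l _ => ?_
    simp [D3_w]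
  · intro b _ hb
    refine Finset.sum_eq_zero fun l _ => ?_
    simp [D3_w, Ne.symm hb]
  · intro h
    exact absurd (Finset.mem_univ i) h

private theorem D3_mem {k : Type u} [Field k] {q m : ℕ} {M : Fin q → ℕ}
    {f : MvPolynomial (Fin q × Fin (m + 1)) k} :
    f ∈ MH k m M ↔ f ∈ weightedHomogeneousSubmodule k (D3_w q m) M := by
  rw [mem_weightedHomogeneousSubmodule]
  constructor
  · intro h d hd
    rw [D3_weight]
    funext i
    exact h d (mem_support_iff.2 hd) i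
  · intro h μ hμ i
    have h1 := h (mem_support_iff.1 hμ)
    rw [D3_weight] at h1
    exact congrFun h1 i

private theorem D3_monMH (R : Type*) [CommSemiring R] {q m : ℕ} {M : Fin q → ℕ} (μ : (Fin q × Fin (m + 1)) →₀ ℕ)
    (hμ : ∀ i, ∑ l, μ (i, l) = M i) (c : R) : monomial μ c ∈ MH R m M := by
  classical
  intro μ' hμ' i
  have h : μ' = μ := by
    by_contra hne
    rw [mem_support_iff, coeff_monomial, if_neg (Ne.symm hne)] at hμ'
    exact hμ' rfl
  rw [h]
  exact hμ i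

private theorem D3_X (R : Type*) [CommSemiring R] {q m : ℕ} (i : Fin q) (l : Fin (m + 1)) :
    (X (i, l) : MvPolynomial (Fin q × Fin (m + 1)) R) ∈ MH R m (Pi.single i 1) := by
  classical
  refine D3_monMH R (Finsupp.single (i, l) 1) (fun i' => ?_) 1
  by_cases h : i' = i
  · subst h
    rw [Pi.single_eq_same, Finset.sum_eq_single l]
    · rw [Finsupp.single_eq_same]
    · intro l' _ hl'
      rw [Finsupp.single_apply, if_neg]
      intro h1
      exact hl' (Prod.ext_iff.1 h1).2.symm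
    · intro h1
      exact absurd (Finset.mem_univ _) h1
  · rw [Pi.single_eq_of_ne h]
    refine Finset.sum_eq_zero fun l' _ => ?_
    rw [Finsupp.single_apply, if_neg]
    intro h1
    exact h (Prod.ext_iff.1 h1).1.symm

private theorem D3_deg {q : ℕ} (M : Fin q → ℕ) (i : Fin q) :
    (fun l => if l = i then M l else M l + 1) + Pi.single i 1 = fun l => M l + 1 := by
  funext l
  rw [Pi.add_apply]
  by_cases h : l = i
  · rw [if_pos h, h, Pi.single_eq_same]
  · rw [if_neg h, Pi.single_eq_of_ne h, add_zero]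

private theorem D3_mul {R : Type*} [CommSemiring R] {q m : ℕ} {M M' : Fin q → ℕ}
    {f g : MvPolynomial (Fin q × Fin (m + 1)) R} (hf : f ∈ MH R m M) (hg : g ∈ MH R m M') :
    f * g ∈ MH R m (M + M') := by
  classical
  intro μ hμ i
  obtain ⟨μ1, h1, μ2, h2, rfl⟩ := Finset.mem_add.1 (support_mul f g hμ)
  simp only [Finsupp.add_apply, Finset.sum_add_distrib, Pi.add_apply]
  rw [hf μ1 h1 i, hg μ2 h2 i]

/-- the product of a coordinate and of a polynomial whose coefficients are forms -/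
private theorem D3_MhX {K : Type u} [Field K] {N q m : ℕ} (i : Fin q) {M : Fin q → ℕ} {F : Fm K N q m} {D : ℕ}
    (hF : Mh F D (fun l => if l = i then M l else M l + 1)) : Mh (X (i, 0) * F) D (fun l => M l + 1) := by
  classical
  refine ⟨fun μ => ?_, ?_⟩
  · rw [coeff_mul]
    refine IsHomogeneous.sum _ _ _ fun p _ => ?_
    rw [coeff_X]
    split_ifs
    · rw [one_mul]
      exact hF.1 p.2
    · rw [zero_mul]
      exact isHomogeneous_zero _ _ _
  · have h1 := D3_mul (D3_X (MvPolynomial (Fin (N + 1)) K) (m := m) i 0) hF.2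
    rw [add_comm (Pi.single i 1 : Fin q → ℕ), D3_deg] at h1
    exact h1

private theorem D3_fin {q m : ℕ} (M : Fin q → ℕ) :
    Finite {μ : (Fin q × Fin (m + 1)) →₀ ℕ // ∀ i, ∑ l, μ (i, l) = M i} := by
  let F : Fin q × Fin (m + 1) →₀ ℕ := Finsupp.equivFunOnFinite.symm fun z => M z.1
  have hfin : Finite (Set.Iic F) := (Set.finite_Iic F).to_subtype
  refine Finite.of_injective (fun μ : {μ : (Fin q × Fin (m + 1)) →₀ ℕ // ∀ i, ∑ l, μ (i, l) = M i} =>
    (⟨μ.1, fun z => ?_⟩ : Set.Iic F)) fun μ μ' h => Subtype.ext (congrArg (fun w : Set.Iic F => w.1) h)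
  have h3 := μ.2 z.1
  have h4 : μ.1 (z.1, z.2) ≤ ∑ l, μ.1 (z.1, l) :=
    Finset.single_le_sum (f := fun l => μ.1 (z.1, l)) (fun _ _ => Nat.zero_le _) (Finset.mem_univ z.2)
  rw [h3] at h4
  exact h4

private theorem D3_spX {K : Type u} [Field K] {N q m : ℕ} (z : Fin q × Fin (m + 1)) {L : Type u}
    [Field L] [Algebra K L] (x : Fin (N + 1) → L) : sp (X z : Fm K N q m) x = X z := by
  unfold sp
  rw [map_X]

private theorem D3_spM {K : Type u} [Field K] {N q m : ℕ} (F G : Fm K N q m) {L : Type u}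
    [Field L] [Algebra K L] (x : Fin (N + 1) → L) : sp (F * G) x = sp F x * sp G x := by
  unfold sp
  rw [map_mul]

private theorem D3_spS {K : Type u} [Field K] {N q m : ℕ} (F G : Fm K N q m) {L : Type u}
    [Field L] [Algebra K L] (x : Fin (N + 1) → L) : sp (F - G) x = sp F x - sp G x := by
  unfold sp
  rw [map_sub]

private theorem D3_spU {K : Type u} [Field K] {N q m s : ℕ} (F : Fin s → Fm K N q m) {L : Type u}
    [Field L] [Algebra K L] (x : Fin (N + 1) → L) : sp (∑ j, F j) x = ∑ j, sp (F j) x := by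
  unfold sp
  rw [map_sum]

private theorem D3_spc {K : Type u} [Field K] {N q m : ℕ} (ρ : MvPolynomial (Fin (N + 1)) K) {L : Type u}
    [Field L] [Algebra K L] (x : Fin (N + 1) → L) : sp (C ρ : Fm K N q m) x = C (aeval x ρ) := by
  unfold sp
  rw [map_C]
  rfl

private theorem D3_spm {K : Type u} [Field K] {N q m : ℕ} (μ : (Fin q × Fin (m + 1)) →₀ ℕ) {L : Type u}
    [Field L] [Algebra K L] (x : Fin (N + 1) → L) : sp (monomial μ 1 : Fm K N q m) x = monomial μ 1 := by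
  unfold sp
  rw [map_monomial, map_one]

private theorem D3_log {C X vR S T a : ℝ} {ρ : ℕ} (hC : 0 < C) (hR : 0 < vR) (hS : 0 < S) (hT : 0 < T)
    (ha : 0 < a) (h : vR * (S * T) ≤ C * X ^ ρ * (a * T)) :
    Real.log S - Real.log a ≤ ρ * Real.log X - Real.log vR + |Real.log C| := by
  have h1 : 0 < C * X ^ ρ * (a * T) := lt_of_lt_of_le (mul_pos hR (mul_pos hS hT)) h
  have h2 : 0 < C * X ^ ρ := pos_of_mul_pos_left h1 (mul_pos ha hT).le
  have h3 : 0 < X ^ ρ := pos_of_mul_pos_right h2 hC.le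
  have h4 : vR * S ≤ C * X ^ ρ * a := by
    refine le_of_mul_le_mul_right ?_ hT
    calc vR * S * T = vR * (S * T) := by ring
      _ ≤ C * X ^ ρ * (a * T) := h
      _ = C * X ^ ρ * a * T := by ring
  have h5 := Real.log_le_log (mul_pos hR hS) h4
  rw [Real.log_mul hR.ne' hS.ne', Real.log_mul h2.ne' ha.ne', Real.log_mul hC.ne' h3.ne', Real.log_pow] at h5
  have h6 := le_abs_self (Real.log C)
  linarith

private theorem D3_ex {s : ℕ} (t : Fin s → ℝ) {W : ℝ} (hW : 0 < W) (h : W ≤ ∑ j, t j) :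
    ∃ j, W ≤ (s : ℝ) * t j := by
  by_contra hcon
  push Not at hcon
  have h1 : (s : ℝ) * ∑ j, t j ≤ ∑ _j : Fin s, W := by
    rw [Finset.mul_sum]
    exact Finset.sum_le_sum fun j _ => (hcon j).le
  rw [Finset.sum_const, Finset.card_univ, Fintype.card_fin, nsmul_eq_mul] at h1
  rcases Nat.eq_zero_or_pos s with h0 | h0
  · subst h0
    rw [Fin.sum_univ_zero] at h
    linarith
  · have hs : (0 : ℝ) < s := Nat.cast_pos.2 h0
    have h2 : (s : ℝ) * ∑ j, t j < ∑ _j : Fin s, W := by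
      rw [Finset.mul_sum]
      have hne : (Finset.univ : Finset (Fin s)).Nonempty := ⟨⟨0, h0⟩, Finset.mem_univ _⟩
      exact Finset.sum_lt_sum_of_nonempty hne fun j _ => hcon j
    rw [Finset.sum_const, Finset.card_univ, Fintype.card_fin, nsmul_eq_mul] at h2
    have h3 := mul_le_mul_of_nonneg_left h hs.le
    linarith

theorem D3_gen {k : Type u} [Field k] {q m κ s : ℕ}
    {h : Fin κ → MvPolynomial (Fin q × Fin (m + 1)) k} (hh : ∀ j, ∃ d, h j ∈ MH k m d)
    (σ : Fin s → Fin q) (Ω : Type u) [Field Ω] [IsAlgClosed Ω] [Algebra k Ω]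
    (hab : ∀ y : Fin q → Fin (m + 1) → Ω, InZ h y → ∃ j, y (σ j) 0 ≠ 0) :
    ∃ M₁ : Fin q → ℕ, ∀ M, M₁ ≤ M → ∀ f ∈ MH k m (fun l => M l + 1),
      ∃ a : Fin s → MvPolynomial (Fin q × Fin (m + 1)) k,
        (∀ j, a j ∈ MH k m (fun l => if l = σ j then M l else M l + 1)) ∧
        f - ∑ j, X (σ j, 0) * a j ∈ Ik h := by
  classical
  have hev : ∀ (y : Fin q × Fin (m + 1) → Ω) (f : MvPolynomial (Fin q × Fin (m + 1)) k),
      eval y (map (algebraMap k Ω) f) = aeval y f := fun y f => by rw [eval_map, aeval_def]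
  obtain ⟨e, he⟩ := B2_null (IΩ (Fin.append h (fun j => X (σ j, 0)) : Fin (κ + s) → MvPolynomial (Fin q × Fin (m + 1)) k) Ω)
    (fun y hy hf => by
      have hj : ∀ j, aeval (fun z : Fin q × Fin (m + 1) => y z.1 z.2)
          ((Fin.append h (fun j => X (σ j, 0)) : Fin (κ + s) → MvPolynomial (Fin q × Fin (m + 1)) k) j) = 0 := fun j => by
        rw [← hev]
        exact hf _ (Ideal.subset_span ⟨j, rfl⟩)
      obtain ⟨j, hj0⟩ := hab y ⟨hy, fun j => by
        have h1 := hj (Fin.castAdd s j)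
        rwa [Fin.append_left] at h1⟩
      have h1 := hj (Fin.natAdd κ j)
      rw [Fin.append_right, aeval_X] at h1
      exact hj0 h1)
  have hle : Ik (Fin.append h (fun j => X (σ j, 0)) : Fin (κ + s) → MvPolynomial (Fin q × Fin (m + 1)) k) ≤
      Ik h ⊔ Ideal.span (Set.range fun j : Fin s => (X (σ j, 0) : MvPolynomial (Fin q × Fin (m + 1)) k)) := by
    unfold Ik
    rw [Ideal.span_le]
    rintro _ ⟨j, rfl⟩
    refine Fin.addCases (fun j => ?_) (fun j => ?_) j
    · rw [Fin.append_left]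
      exact Ideal.mem_sup_left (Ideal.subset_span ⟨j, rfl⟩)
    · rw [Fin.append_right]
      exact Ideal.mem_sup_right (Ideal.subset_span ⟨j, rfl⟩)
  have hmon : ∀ μ : (Fin q × Fin (m + 1)) →₀ ℕ, (∀ i, e ≤ ∑ l, μ (i, l)) →
      (monomial μ 1 : MvPolynomial (Fin q × Fin (m + 1)) k) ∈
        Ik h ⊔ Ideal.span (Set.range fun j : Fin s => (X (σ j, 0) : MvPolynomial (Fin q × Fin (m + 1)) k)) := by
    intro μ hμ
    refine hle ((B1_mem (Ω := Ω) _ _).1 ?_)
    rw [map_monomial, map_one]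
    exact he μ hμ
  refine ⟨fun _ => e, fun M hM f hf => ?_⟩
  have hfJ : f ∈ Ik h ⊔ Ideal.span (Set.range fun j : Fin s => (X (σ j, 0) : MvPolynomial (Fin q × Fin (m + 1)) k)) := by
    rw [f.as_sum]
    refine Ideal.sum_mem _ fun μ hμ => ?_
    have h4 : monomial μ (coeff μ f) = C (coeff μ f) * monomial μ 1 := by
      rw [C_mul_monomial, mul_one]
    rw [h4]
    refine Ideal.mul_mem_left _ _ (hmon μ fun i => ?_)
    rw [hf μ hμ i]
    have h5 : e ≤ M i := hM i
    show e ≤ M i + 1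
    omega
  let _ : GradedAlgebra (weightedHomogeneousSubmodule k (D3_w q m)) := weightedGradedAlgebra k (D3_w q m)
  have hI : (Ik h).IsHomogeneous (weightedHomogeneousSubmodule k (D3_w q m)) := by
    refine Ideal.homogeneous_span _ _ ?_
    rintro _ ⟨j, rfl⟩
    obtain ⟨d, hd⟩ := hh j
    exact ⟨d, D3_mem.1 hd⟩
  obtain ⟨g, hg, e', he', hge⟩ := Submodule.mem_sup.1 hfJ
  obtain ⟨c, hc⟩ := (Submodule.mem_span_range_iff_exists_fun _).1 he'
  have hX : ∀ j, (X (σ j, 0) : MvPolynomial (Fin q × Fin (m + 1)) k) ∈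
      weightedHomogeneousSubmodule k (D3_w q m) (Pi.single (σ j) 1) := fun j => D3_mem.1 (D3_X k (σ j) 0)
  have hf' := D3_mem.1 hf
  have e1 : ∀ j, (DirectSum.decompose (weightedHomogeneousSubmodule k (D3_w q m)) (c j * X (σ j, 0)) (fun l => M l + 1) :
      MvPolynomial (Fin q × Fin (m + 1)) k) =
      (DirectSum.decompose (weightedHomogeneousSubmodule k (D3_w q m)) (c j)
        (fun l => if l = σ j then M l else M l + 1) : MvPolynomial (Fin q × Fin (m + 1)) k) *
        X (σ j, 0) := by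
    intro j
    rw [← D3_deg M (σ j)]
    exact DirectSum.coe_decompose_mul_add_of_right_mem _ (hX j)
  have e3 : (DirectSum.decompose (weightedHomogeneousSubmodule k (D3_w q m)) f (fun l => M l + 1) :
      MvPolynomial (Fin q × Fin (m + 1)) k) = f := DirectSum.decompose_of_mem_same _ hf'
  have e4 : (DirectSum.decompose (weightedHomogeneousSubmodule k (D3_w q m)) f (fun l => M l + 1) :
      MvPolynomial (Fin q × Fin (m + 1)) k) =
      DirectSum.decompose (weightedHomogeneousSubmodule k (D3_w q m)) g (fun l => M l + 1) +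
      ∑ j, (DirectSum.decompose (weightedHomogeneousSubmodule k (D3_w q m)) (c j * X (σ j, 0)) (fun l => M l + 1) :
        MvPolynomial (Fin q × Fin (m + 1)) k) := by
    rw [← hge, ← hc, DirectSum.decompose_add, DirectSum.decompose_sum]
    show ((DirectSum.decompose (weightedHomogeneousSubmodule k (D3_w q m)) g +
      ∑ j, DirectSum.decompose (weightedHomogeneousSubmodule k (D3_w q m)) (c j * X (σ j, 0))) (fun l => M l + 1) :
        MvPolynomial (Fin q × Fin (m + 1)) k) = _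
    rw [DirectSum.add_apply, Submodule.coe_add, DirectSum.sum_apply, Submodule.coe_sum]
  refine ⟨fun j => DirectSum.decompose (weightedHomogeneousSubmodule k (D3_w q m)) (c j)
    (fun l => if l = σ j then M l else M l + 1), fun j => D3_mem.2 (SetLike.coe_mem _), ?_⟩
  have e5 : f - ∑ j, X (σ j, 0) * (DirectSum.decompose (weightedHomogeneousSubmodule k (D3_w q m)) (c j)
      (fun l => if l = σ j then M l else M l + 1) : MvPolynomial (Fin q × Fin (m + 1)) k) =
      DirectSum.decompose (weightedHomogeneousSubmodule k (D3_w q m)) g (fun l => M l + 1) := by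
    have e6 : ∑ j, X (σ j, 0) * (DirectSum.decompose (weightedHomogeneousSubmodule k (D3_w q m)) (c j)
        (fun l => if l = σ j then M l else M l + 1) : MvPolynomial (Fin q × Fin (m + 1)) k) =
        ∑ j, (DirectSum.decompose (weightedHomogeneousSubmodule k (D3_w q m)) (c j * X (σ j, 0)) (fun l => M l + 1) :
        MvPolynomial (Fin q × Fin (m + 1)) k) := by
      refine Finset.sum_congr rfl fun j _ => ?_
      rw [e1 j, mul_comm]
    rw [e6]
    conv_lhs => rw [← e3, e4]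
    ring
  rw [e5]
  exact hI _ hg


private theorem D3_alg {K : Type u} [Field K] {N q m κ s : ℕ} (A : AV K N) (H : Fin κ → Fm K N q m)
    (hH : ∀ j, ∃ a d, Mh (H j) a d) (σ : Fin s → Fin q)
    (hab : ∀ (L : Type u) [Field L] [IsAlgClosed L] [Algebra K L] (P : A.Pts L), Gen A P →
      ∀ y, InX H (A.x P) y → ∃ j, y (σ j) 0 ≠ 0) :
    ∃ (M : Fin q → ℕ) (D : ℕ) (ρ₀ R' : MvPolynomial (Fin (N + 1)) K) (ρ' n : ℕ)
      (μ : Fin n → (Fin q × Fin (m + 1)) →₀ ℕ) (F : Fin n → Fin s → Fm K N q m),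
      ρ₀.IsHomogeneous D ∧ R'.IsHomogeneous ρ' ∧ ρ₀ * R' ∉ A.I ∧
      (∀ ν : (Fin q × Fin (m + 1)) →₀ ℕ, (∀ i, ∑ l, ν (i, l) = M i + 1) → ∃ c, μ c = ν) ∧
      (∀ c j, Mh (F c j) D (fun l => if l = σ j then M l else M l + 1)) ∧
      ∀ (P : A.Pts K) (y : Fin q → Fin (m + 1) → K), InX H (A.x P) y → aeval (A.x P) (ρ₀ * R') ≠ 0 →
        ∀ c, aeval (A.x P) ρ₀ * ∏ z, y z.1 z.2 ^ μ c z =
          ∑ j, y (σ j) 0 * val (F c j) (A.x P) y := by
  classical
  obtain ⟨Ω, _, _, _, P₀, hP₀⟩ := Pool.Agent.Lib.MP_17a322_nt.EF.T_gen A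
  obtain ⟨x, hx⟩ : ∃ x, x = A.x P₀ := ⟨_, rfl⟩
  have hx0 : x ≠ 0 := by
    obtain ⟨j, hj⟩ := A.exists_x_ne P₀
    intro h
    rw [← hx, h] at hj
    exact hj rfl
  obtain ⟨h, hh, hI, hZ⟩ := C4_down (m := m) H hH hx0
  obtain ⟨M, hM⟩ := D3_gen hh σ Ω
    (fun y hy => by
      refine hab Ω P₀ hP₀ y ?_
      rw [← hx]
      exact (hZ y).1 hy)
  have hfin := D3_fin (m := m) (fun l => M l + 1)
  obtain ⟨n, ⟨eqv⟩⟩ := Finite.exists_equiv_fin
    {μ : (Fin q × Fin (m + 1)) →₀ ℕ // ∀ i, ∑ l, μ (i, l) = M i + 1}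
  choose a ha hfa using fun c : Fin n => hM M le_rfl (monomial (eqv.symm c).1 1)
    (D3_monMH (kx K x) (eqv.symm c).1 (eqv.symm c).2 1)
  obtain ⟨D, ρ₀, F', hρ₀, hρ₀x, hF', hF'x⟩ := C2_lift (m := m) (q := q) hx0 (n := n * s)
    (fun t => fun l => if l = σ (finProdFinEquiv.symm t).2 then M l else M l + 1)
    (fun t => a (finProdFinEquiv.symm t).1 (finProdFinEquiv.symm t).2) (fun t => ha _ _)
  obtain ⟨F, hF⟩ : ∃ F : Fin n → Fin s → Fm K N q m, F = fun c j => F' (finProdFinEquiv (c, j)) := ⟨_, rfl⟩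
  have hFm : ∀ c j, Mh (F c j) D (fun l => if l = σ j then M l else M l + 1) := fun c j => by
    have h1 := hF' (finProdFinEquiv (c, j))
    rw [Equiv.symm_apply_apply] at h1
    rw [hF]
    exact h1
  have hFx : ∀ c j, sp (F c j) x = C (aeval x ρ₀) * map (algebraMap (kx K x) Ω) (a c j) := fun c j => by
    have h1 := hF'x (finProdFinEquiv (c, j))
    rw [Equiv.symm_apply_apply] at h1
    rw [hF]
    exact h1
  have hΦ : ∀ c, Mh (C ρ₀ * monomial (eqv.symm c).1 1 - ∑ j, X (σ j, 0) * F c j : Fm K N q m) D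
      (fun l => M l + 1) := fun c => by
    have h1 := fun j => D3_MhX (σ j) (hFm c j)
    have h3 : Mh (C ρ₀ * monomial (eqv.symm c).1 1 : Fm K N q m) D (fun l => M l + 1) := by
      rw [C_mul_monomial, mul_one]
      refine ⟨fun μ => ?_, D3_monMH _ _ (eqv.symm c).2 _⟩
      rw [coeff_monomial]
      split_ifs
      · exact hρ₀
      · exact isHomogeneous_zero _ _ _
    refine ⟨fun μ => ?_, Submodule.sub_mem _ h3.2 (Submodule.sum_mem _ fun j _ => (h1 j).2)⟩
    rw [coeff_sub, coeff_sum]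
    exact (homogeneousSubmodule (Fin (N + 1)) K D).sub_mem (h3.1 μ)
      ((homogeneousSubmodule (Fin (N + 1)) K D).sum_mem fun j _ => (h1 j).1 μ)
  have h0 : ∀ c, sp (C ρ₀ * monomial (eqv.symm c).1 1 - ∑ j, X (σ j, 0) * F c j : Fm K N q m) (A.x P₀) ∈
      fib H (A.x P₀) := fun c => by
    rw [← hx, ← hI, D3_spS, D3_spU, D3_spM, D3_spc, D3_spm]
    have h1 := (B1_mem (Ω := Ω) h _).2 (hfa c)
    rw [map_sub, map_sum, map_monomial, map_one] at h1
    have h2 := Ideal.mul_mem_left _ (C (aeval x ρ₀)) h1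
    have h3 : C (aeval x ρ₀) * (monomial (eqv.symm c).1 1 -
        ∑ j, map (algebraMap (kx K x) Ω) (X (σ j, 0) * a c j)) =
        C (aeval x ρ₀) * monomial (eqv.symm c).1 1 - ∑ j, sp (X (σ j, 0) * F c j) x := by
      rw [mul_sub, Finset.mul_sum]
      congr 1
      refine Finset.sum_congr rfl fun j _ => ?_
      rw [D3_spM, D3_spX, hFx, map_mul, map_X]
      ring
    rw [h3] at h2
    exact h2
  choose R ρ hR hRI hRz using fun c => C3_tr A H hH P₀ hP₀ (hΦ c) (h0 c)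
  have hIp := Z_prime A
  refine ⟨M, D, ρ₀, ∏ c, R c, ∑ c, ρ c, n, fun c => (eqv.symm c).1, F, hρ₀,
    IsHomogeneous.prod _ _ _ fun c _ => hR c, ?_, ?_, hFm, ?_⟩
  · intro h1
    rcases hIp.mem_or_mem h1 with h2 | h2
    · apply hρ₀x
      rw [hx]
      exact A.x_isPt P₀ _ h2
    · obtain ⟨c, -, h3⟩ := (Ideal.IsPrime.prod_mem_iff (hp := hIp)).1 h2
      exact hRI c h3
  · intro ν hν
    refine ⟨eqv ⟨ν, hν⟩, ?_⟩
    simp only [Equiv.symm_apply_apply]
  · intro P y hy hne c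
    have h1 := hRz c K P y hy.2
    have h2 : aeval (A.x P) (R c) ≠ 0 := by
      intro h3
      apply hne
      rw [map_mul, map_prod, Finset.prod_eq_zero (Finset.mem_univ c) h3, mul_zero]
    have h3 := (mul_eq_zero.1 h1).resolve_left h2
    unfold val at h3 ⊢
    rw [D3_spS, D3_spU, D3_spM, D3_spc, D3_spm, map_sub, map_sum, map_mul, eval_C, eval_monomial, one_mul,
      Finsupp.prod_fintype _ _ (fun i => pow_zero _)] at h3
    have h4 := sub_eq_zero.1 h3
    rw [h4]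
    refine Finset.sum_congr rfl fun j _ => ?_
    rw [D3_spM, D3_spX, map_mul, eval_X]

theorem D3_far {K : Type u} [Field K] {N q m κ s : ℕ} (A : AV K N) (H : Fin κ → Fm K N q m)
    (hH : ∀ j, ∃ a d, Mh (H j) a d) (σ : Fin s → Fin q)
    (hab : ∀ (L : Type u) [Field L] [IsAlgClosed L] [Algebra K L] (P : A.Pts L), Gen A P →
      ∀ y, InX H (A.x P) y → ∃ j, y (σ j) 0 ≠ 0) :
    ∃ (R : MvPolynomial (Fin (N + 1)) K) (ρ : ℕ), R.IsHomogeneous ρ ∧ R ∉ A.I ∧
      ∀ v : AbsoluteValue K ℝ, ∃ C : ℝ, 0 ≤ C ∧ ∀ (P : A.Pts K) (y : Fin q → Fin (m + 1) → K),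
        InX H (A.x P) y → aeval (A.x P) R ≠ 0 → (∀ i, y i 0 ≠ 0) →
        ∃ j, lam v (y (σ j)) ≤ LR ρ R v (A.x P) + C := by
  classical
  obtain ⟨M, D, ρ₀, R', ρ', n, μ, F, hρ₀, hR', hRI, hμ, hF, hrel⟩ := D3_alg A H hH σ hab
  refine ⟨ρ₀ * R', D + ρ', hρ₀.mul hR', hRI, fun v => ?_⟩
  choose CF hCF hCF' using fun c j => D0_bd (hF c j) v
  obtain ⟨C', hC', hC''⟩ := E0_LR_ge hR' v
  obtain ⟨B, hB⟩ : ∃ B : ℝ, B = 1 + ∑ c, ∑ j, CF c j := ⟨_, rfl⟩
  have hBc : ∀ c j, CF c j ≤ B := fun c j => by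
    have h1 : CF c j ≤ ∑ j, CF c j := Finset.single_le_sum (f := CF c) (fun j _ => (hCF c j).le) (Finset.mem_univ j)
    have h2 : ∑ j, CF c j ≤ ∑ c, ∑ j, CF c j :=
      Finset.single_le_sum (f := fun c => ∑ j, CF c j) (fun c _ => Finset.sum_nonneg fun j _ => (hCF c j).le)
        (Finset.mem_univ c)
    rw [hB]
    linarith
  have hB0 : 0 < B := by
    have h2 : 0 ≤ ∑ c, ∑ j, CF c j := Finset.sum_nonneg fun c _ => Finset.sum_nonneg fun j _ => (hCF c j).le
    rw [hB]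
    linarith
  refine ⟨|Real.log ((s : ℝ) * B)| + C', add_nonneg (abs_nonneg _) hC', fun P y hy hne hy0 => ?_⟩
  have hne1 : aeval (A.x P) ρ₀ ≠ 0 := fun h => hne (by rw [map_mul, h, zero_mul])
  have hne2 : aeval (A.x P) R' ≠ 0 := fun h => hne (by rw [map_mul, h, mul_zero])
  have hx0 : A.x P ≠ 0 := by
    obtain ⟨j, hj⟩ := A.exists_x_ne P
    intro h
    rw [h] at hj
    exact hj rfl
  obtain ⟨Y, hY⟩ : ∃ Y : Fin q → ℝ, Y = fun i => ⨆ l, v (y i l) := ⟨_, rfl⟩
  have hYi : ∀ i, (⨆ l, v (y i l)) = Y i := fun i => by rw [hY]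
  have hvi : ∀ i, 0 < v (y i 0) := fun i => (AbsoluteValue.pos_iff v).2 (hy0 i)
  have hY0 : ∀ i, 0 < Y i := fun i => by
    rw [← hYi]
    exact (hvi i).trans_le (le_ciSup (f := fun l => v (y i l)) (Set.finite_range _).bddAbove 0)
  have hpos : ∀ e : Fin q → ℕ, 0 < ∏ i, Y i ^ e i := fun e => Finset.prod_pos fun i _ => pow_pos (hY0 i) _
  have hsplit : ∀ j, ∏ i, Y i ^ (M i + 1) = Y (σ j) * ∏ i, Y i ^ (if i = σ j then M i else M i + 1) := by
    intro j
    have h1 : ∏ i, Y i ^ (Pi.single (σ j) 1 : Fin q → ℕ) i = Y (σ j) := by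
      rw [Finset.prod_eq_single (σ j)]
      · rw [Pi.single_eq_same, pow_one]
      · intro b _ hb
        rw [Pi.single_eq_of_ne hb, pow_zero]
      · intro h
        exact absurd (Finset.mem_univ _) h
    rw [← h1, ← Finset.prod_mul_distrib]
    refine Finset.prod_congr rfl fun i _ => ?_
    rw [← pow_add]
    congr 1
    have h2 := congrFun (D3_deg M (σ j)) i
    rw [Pi.add_apply] at h2
    exact h2.symm.trans (add_comm _ _)
  obtain ⟨ν, hν1, hν2⟩ := D0_max v (fun i => M i + 1) y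
  obtain ⟨c, hc⟩ := hμ ν hν1
  have h1 := hrel P y hy hne c
  rw [hc] at h1
  simp only [hYi] at hν2
  have hvρ : 0 < v (aeval (A.x P) ρ₀) := (AbsoluteValue.pos_iff v).2 hne1
  have hX0 : 0 ≤ (⨆ i, v (A.x P i)) := Real.iSup_nonneg fun i => v.nonneg _
  have h2 : v (aeval (A.x P) ρ₀) * ∏ i, Y i ^ (M i + 1) ≤
      ∑ j, B * (⨆ i, v (A.x P i)) ^ D * (v (y (σ j) 0) * ∏ i, Y i ^ (if i = σ j then M i else M i + 1)) := by
    rw [← hν2, ← v.map_mul, h1]
    refine (v.sum_le _ _).trans (Finset.sum_le_sum fun j _ => ?_)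
    rw [v.map_mul]
    have h3 := hCF' c j (A.x P) y
    simp only [hYi] at h3
    have h4 : v (val (F c j) (A.x P) y) ≤ B * (⨆ i, v (A.x P i)) ^ D *
        ∏ i, Y i ^ (if i = σ j then M i else M i + 1) := by
      refine h3.trans ?_
      exact mul_le_mul_of_nonneg_right (mul_le_mul_of_nonneg_right (hBc c j) (pow_nonneg hX0 _)) (hpos _).le
    calc v (y (σ j) 0) * v (val (F c j) (A.x P) y) ≤ v (y (σ j) 0) * (B * (⨆ i, v (A.x P i)) ^ D *
        ∏ i, Y i ^ (if i = σ j then M i else M i + 1)) := mul_le_mul_of_nonneg_left h4 (v.nonneg _)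
      _ = _ := by ring
  obtain ⟨j, hj⟩ := D3_ex _ (mul_pos hvρ (hpos fun i => M i + 1)) h2
  have hs : (0 : ℝ) < s := by
    have h5 : 0 < s := lt_of_le_of_lt (Nat.zero_le _) j.2
    exact Nat.cast_pos.2 h5
  refine ⟨j, ?_⟩
  rw [hsplit j] at hj
  have h3 := D3_log (C := (s : ℝ) * B) (X := ⨆ i, v (A.x P i)) (vR := v (aeval (A.x P) ρ₀)) (S := Y (σ j))
    (T := ∏ i, Y i ^ (if i = σ j then M i else M i + 1)) (a := v (y (σ j) 0)) (ρ := D)
    (mul_pos hs hB0) hvρ (hY0 _) (hpos _) (hvi _) (by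
      refine hj.trans (le_of_eq ?_)
      ring)
  have h4 := hC'' (A.x P) hx0 hne2
  rw [E0_LR_mul D ρ' ρ₀ R' v (A.x P) hne1 hne2]
  unfold UTA.lam
  unfold LR at h4 ⊢
  rw [hYi]
  linarith

end UTB
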