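import Pool.Agent.Lib.MP_17a322_ntTA.Est
import Pool.Agent.Lib.MP_17a322_ntTA.B0

/-!
Families of varieties of dimension `n` over an abelian variety `A` in `ℙ^m × ... × ℙ^m` (`q` factors), and the
hyperplane sections `D_i : y_(i, 0) = 0`: definitions (T2, every relative dimension).
-/

set_option autoImplicit false

universe u

namespace UTB

open MvPolynomial UTA
open Pool.Agent.Lib.MP_17a322_nt.VA Pool.Agent.Lib.MP_17a322_nt.SL

/-- The generic fibre of `X → A` is geometrically integral, of dimension at most `n` (`n + 1` forms of the same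
multidegree `(d, ..., d)` without common zero), every projection to a factor `ℙ^m` has an image of dimension at
least `n` (`n + 1` coordinates without algebraic relation), every `D_i` meets it and does not contain it, and no
`g + 1` of the `D_i` have a common point on it. -/
structure Fams {K : Type u} [Field K] {N q m κ : ℕ} (n g : ℕ) (A : AV K N) (H : Fin κ → Fm K N q m) :
    Prop where
  hom : ∀ j, ∃ a d, Mh (H j) a d
  prime : ∀ (L : Type u) [Field L] [IsAlgClosed L] [Algebra K L] (P : A.Pts L), Gen A P →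
    (fib H (A.x P)).IsPrime
  le : ∀ (L : Type u) [Field L] [IsAlgClosed L] [Algebra K L] (P : A.Pts L), Gen A P →
    ∃ d : ℕ, 0 < d ∧ ∃ f : Fin (n + 1) → MvPolynomial (Fin q × Fin (m + 1)) L,
      (∀ j, f j ∈ MH L m fun _ => d) ∧ ∀ y, InX H (A.x P) y →
        ∃ j, aeval (fun z : Fin q × Fin (m + 1) => y z.1 z.2) (f j) ≠ 0
  big : ∀ (L : Type u) [Field L] [IsAlgClosed L] [Algebra K L] (P : A.Pts L), Gen A P →
    ∀ i, ∃ t : Fin (n + 1) → Fin (m + 1), ∀ G : MvPolynomial (Fin (n + 1)) L,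
      aeval (fun j => (X (i, t j) : MvPolynomial (Fin q × Fin (m + 1)) L)) G ∈ fib H (A.x P) → G = 0
  ne : ∀ (L : Type u) [Field L] [IsAlgClosed L] [Algebra K L] (P : A.Pts L), Gen A P →
    ∀ i, (∃ y, InX H (A.x P) y ∧ y i 0 = 0) ∧ ∃ y, InX H (A.x P) y ∧ y i 0 ≠ 0
  gen : ∀ (L : Type u) [Field L] [IsAlgClosed L] [Algebra K L] (P : A.Pts L), Gen A P →
    ∀ σ : Fin (g + 1) → Fin q, Function.Injective σ → ∀ y, InX H (A.x P) y → ∃ j, y (σ j) 0 ≠ 0

/-- The forms of multidegree `M` modulo the ideal `I`. -/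
noncomputable def Vk {k : Type u} [Field k] {q m : ℕ} (I : Ideal (MvPolynomial (Fin q × Fin (m + 1)) k))
    (M : Fin q → ℕ) : Submodule k (MvPolynomial (Fin q × Fin (m + 1)) k ⧸ I) :=
  (MH k m M).map (Ideal.Quotient.mkₐ k I).toLinearMap

/-- Bases of the forms of multidegree `M` on the generic fibre, one for every `i` and every coordinate `t` of the
block `i`, adapted to the order of vanishing along `D_i`, over the ring of forms in `x`. -/
structure Bas2 {K : Type u} [Field K] {N q m κ : ℕ} (A : AV K N) (H : Fin κ → Fm K N q m)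
    (δ M : Fin q → ℕ) (r : ℕ) where
  /-- The exponents of a basis of monomials. -/
  mon : Fin r → (Fin q × Fin (m + 1)) →₀ ℕ
  /-- The degree in `x`. -/
  D : ℕ
  /-- The coefficients of the adapted bases. -/
  Λ : Fin q → Fin (m + 1) → Fin r → Fin r → MvPolynomial (Fin (N + 1)) K
  /-- The orders of vanishing. -/
  e : Fin q → Fin (m + 1) → Fin r → ℕ
  /-- The quotients. -/
  G : Fin q → Fin (m + 1) → Fin r → Fm K N q m
  /-- The denominator. -/
  R : MvPolynomial (Fin (N + 1)) K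
  /-- The degree of the denominator. -/
  ρ : ℕ
  mon_deg : ∀ l i, ∑ t, mon l (i, t) = M i
  mon_li : ∀ (L : Type u) [Field L] [IsAlgClosed L] [Algebra K L] (P : A.Pts L), Gen A P →
    ∀ u : Fin r → L, ∑ l, C (u l) * monomial (mon l) 1 ∈ fib H (A.x P) → u = 0
  Λ_hom : ∀ i t l c, (Λ i t l c).IsHomogeneous D
  Λ_li : ∀ i t, ∀ (L : Type u) [Field L] [Algebra K L] (P : A.Pts L), Gen A P →
    LinearIndependent L fun l c => aeval (A.x P) (Λ i t l c)
  G_mh : ∀ i t l, Mh (G i t l) D M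
  e_sum : ∀ i t, r * r ≤ δ i * (2 * ∑ l, e i t l + r)
  R_hom : R.IsHomogeneous ρ
  R_notMem : R ∉ A.I
  rel : ∀ (L : Type u) [Field L] [Algebra K L] (P : A.Pts L) (y : Fin q → Fin (m + 1) → L),
    (∀ j, val (H j) (A.x P) y = 0) → ∀ i t l,
      aeval (A.x P) R * (y i t ^ e i t l *
        (∑ c, aeval (A.x P) (Λ i t l c) * ∏ z, y z.1 z.2 ^ mon c z) -
          y i 0 ^ e i t l * val (G i t l) (A.x P) y) = 0

/-- The interface between the algebraic part and the subspace theorem (helper30's `EstG`): finitely many bases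
`Λ b` such that at every place and every point one of them satisfies the local estimate `loc`. -/
structure EstG {K : Type u} [Field K] {N q m κ : ℕ} (A : AV K N) (H : Fin κ → Fm K N q m)
    (M : Fin q → ℕ) (r : ℕ) (θ : ℝ) where
  mon : Fin r → (Fin q × Fin (m + 1)) →₀ ℕ
  deg : ∀ c i, ∑ l, mon c (i, l) = M i
  ind : ∀ (L : Type u) [Field L] [IsAlgClosed L] [Algebra K L] (P : A.Pts L), Gen A P →
    ∀ u : Fin r → L, ∑ c, u c • monomial (mon c) (1 : L) ∈ fib H (A.x P) → u = 0
  s : ℕ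
  D : ℕ
  Λ : Fin s → Fin r → Fin r → MvPolynomial (Fin (N + 1)) K
  Λ_hom : ∀ b l c, (Λ b l c).IsHomogeneous D
  Λ_det : ∀ b, (Matrix.of (Λ b)).det ∉ A.I
  d : ℕ
  R : MvPolynomial (Fin (N + 1)) K
  R_hom : R.IsHomogeneous d
  R_not : R ∉ A.I
  T : ℕ
  loc : ∀ v : AbsoluteValue K ℝ, ∃ C : ℝ, ∀ (P : A.Pts K) (y : Fin q → Fin (m + 1) → K),
    InX H (A.x P) y → aeval (A.x P) R ≠ 0 → (∀ i, y i 0 ≠ 0) → ∃ b : Fin s,
      (∀ l, ∑ c, aeval (A.x P) (Λ b l c) * ∏ z, y z.1 z.2 ^ mon c z ≠ 0) →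
      r * θ * ∑ i, M i * lam v (y i) ≤ ∑ l, (∑ j, M j * Real.log (⨆ t, v (y j t)) +
        D * Real.log (⨆ a, v (A.x P a)) -
        Real.log (v (∑ c, aeval (A.x P) (Λ b l c) * ∏ z, y z.1 z.2 ^ mon c z))) +
        T * LR d R v (A.x P) + C

end UTB
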