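import Mathlib.Algebra.Order.Antidiag.FinsuppEquiv
import Pool.Agent.Lib.MP_17a322_ntTB.Defs
import Pool.Agent.Lib.MP_17a322_ntTA.B3

/-!
Leaf H1: simple facts on the Hilbert function (`hf` is `UTA.hf` in ntTA/Defs.lean, `hf I M = finrank (Vk I M)` by `rfl`), and the lower bound.

PROOF. `Vk I M` is the image of `MH k m M`, finite-dimensional by `B3_fd`.
`H1_fd`: image of a finite-dimensional space. `H1_mul`: `Submodule.mem_map`, `B3_mul`.
`H1_step`: the multiplication by the class of `X (j, 0)` is injective (domain) and maps `Vk I M` to `Vk I (M + e_j)`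
(`LinearMap.finrank_le_finrank_of_injective` for the restricted map).
`H1_ge`: the map from the homogeneous polynomials of degree `M l` in `n + 1` variables, `G ↦ (∏_(j ≠ l) X (j, 0) ^ M j) * G(X (l, t_0), ..., X (l, t_n))`
modulo `I`, is injective (`I` is prime, the `X (j, 0)` are not in `I`, `hG`) with values in `Vk I M`. There are `binom (M l + n) n` monomials of degree `M l` in
`n + 1` variables (`Sym`, or only: the `(M l + 1) ..`; what is needed is only `(M l) ^ n ≤ n! * (number)`; e.g. `Finsupp` antidiagonal, `Finset.card_finsuppAntidiag`-like, or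
`Nat.choose`, `Nat.pow_sub_le_descFactorial`; `MvPolynomial.homogeneousSubmodule` finrank; ANY way to produce at least
`M l ^ n / n!` independent elements is fine: by `hG` the products `∏_(j ≤ n) X (l, t_j) ^ (a_j)` with `∑ a_j = M l` are
independent for different `a`; the number of the `a` with `∑_(j < n) a_j ≤ M l` is `binom (M l + n) n ≥ (M l) ^ n / n!`).
-/

set_option autoImplicit false

universe u

namespace UTB

open MvPolynomial UTA

variable {k : Type u} [Field k] {q m n : ℕ} {I : Ideal (MvPolynomial (Fin q × Fin (m + 1)) k)}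

theorem H1_fd (I : Ideal (MvPolynomial (Fin q × Fin (m + 1)) k)) (M : Fin q → ℕ) :
    FiniteDimensional k (Vk I M) := by
  have := B3_fd (k := k) (m := m) M
  exact Module.Finite.map (MH k m M) (Ideal.Quotient.mkₐ k I).toLinearMap

theorem H1_mul {M M' : Fin q → ℕ} {f : MvPolynomial (Fin q × Fin (m + 1)) k} (hf : f ∈ MH k m M')
    {x : MvPolynomial (Fin q × Fin (m + 1)) k ⧸ I} (hx : x ∈ Vk I M) :
    Ideal.Quotient.mk I f * x ∈ Vk I (M + M') := by
  obtain ⟨g, hg, rfl⟩ := Submodule.mem_map.1 hx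
  refine Submodule.mem_map.2 ⟨f * g, ?_, ?_⟩
  · rw [add_comm M M']
    exact B3_mul hf hg
  · change Ideal.Quotient.mk I (f * g) = Ideal.Quotient.mk I f * Ideal.Quotient.mk I g
    exact map_mul _ f g

private theorem H1_X (i : Fin q) (s : Fin (m + 1)) :
    (X (i, s) : MvPolynomial (Fin q × Fin (m + 1)) k) ∈ MH k m (Pi.single i 1) := by
  classical
  intro μ hμ j
  rw [support_X, Finset.mem_singleton] at hμ
  subst hμ
  rcases eq_or_ne j i with h | h
  · subst h
    rw [Pi.single_eq_same, Finset.sum_eq_single s]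
    · exact Finsupp.single_eq_same
    · intro b _ hb
      exact Finsupp.single_eq_of_ne (fun e => hb (Prod.ext_iff.1 e).2)
    · intro h
      exact absurd (Finset.mem_univ s) h
  · rw [Pi.single_eq_of_ne h]
    refine Finset.sum_eq_zero fun b _ => ?_
    exact Finsupp.single_eq_of_ne (fun e => h (Prod.ext_iff.1 e).1)

private theorem H1_one : (1 : MvPolynomial (Fin q × Fin (m + 1)) k) ∈ MH k m 0 := by
  intro μ hμ j
  have h1 : μ = 0 := by
    have h2 : (1 : MvPolynomial (Fin q × Fin (m + 1)) k).support = {0} := MvPolynomial.support_one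
    rw [h2, Finset.mem_singleton] at hμ
    exact hμ
  subst h1
  simp

private theorem H1_pow {M : Fin q → ℕ} {f : MvPolynomial (Fin q × Fin (m + 1)) k} (hf : f ∈ MH k m M) (c : ℕ) :
    f ^ c ∈ MH k m (c • M) := by
  induction c with
  | zero =>
    rw [pow_zero, zero_smul]
    exact H1_one
  | succ c ih =>
    rw [pow_succ, succ_nsmul]
    exact B3_mul ih hf

private theorem H1_prod {ι : Type} (s : Finset ι) (f : ι → MvPolynomial (Fin q × Fin (m + 1)) k)
    (D : ι → (Fin q → ℕ)) (hf : ∀ j, f j ∈ MH k m (D j)) : ∏ j ∈ s, f j ∈ MH k m (∑ j ∈ s, D j) := by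
  classical
  induction s using Finset.induction_on with
  | empty =>
    rw [Finset.prod_empty, Finset.sum_empty]
    exact H1_one
  | insert a s ha ih =>
    rw [Finset.prod_insert ha, Finset.sum_insert ha]
    exact B3_mul (hf a) ih

private theorem H1_mon (l : Fin q) (t : Fin (n + 1) → Fin (m + 1)) (M : Fin q → ℕ) (a : Fin (n + 1) →₀ ℕ)
    (ha : ∑ j, a j = M l) :
    (∏ j ∈ Finset.univ.erase l, (X (j, 0) : MvPolynomial (Fin q × Fin (m + 1)) k) ^ M j) *
      ∏ j, (X (l, t j) : MvPolynomial (Fin q × Fin (m + 1)) k) ^ a j ∈ MH k m M := by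
  have h1 := H1_prod (k := k) (m := m) (Finset.univ.erase l)
    (fun j => (X (j, 0) : MvPolynomial (Fin q × Fin (m + 1)) k) ^ M j) (fun j => M j • Pi.single j 1)
    (fun j => H1_pow (H1_X j 0) (M j))
  have h2 := H1_prod (k := k) (m := m) Finset.univ
    (fun j : Fin (n + 1) => (X (l, t j) : MvPolynomial (Fin q × Fin (m + 1)) k) ^ a j) (fun j => a j • Pi.single l 1)
    (fun j => H1_pow (H1_X l (t j)) (a j))
  have h3 := B3_mul h1 h2
  have h4 : (∑ j ∈ Finset.univ.erase l, M j • (Pi.single j 1 : Fin q → ℕ)) + ∑ j, a j • (Pi.single l 1 : Fin q → ℕ) = M := by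
    rw [← Finset.sum_smul, ha, Finset.sum_erase_add Finset.univ (fun j => M j • (Pi.single j 1 : Fin q → ℕ)) (Finset.mem_univ l)]
    have h5 : ∀ j : Fin q, M j • (Pi.single j 1 : Fin q → ℕ) = Pi.single j (M j) := by
      intro j
      rw [← Pi.single_smul, smul_eq_mul, mul_one]
    rw [Finset.sum_congr rfl (fun j _ => h5 j)]
    exact Finset.univ_sum_single M
  rw [h4] at h3
  exact h3

theorem H1_step (hp : I.IsPrime) (j : Fin q) (hj : (X (j, 0) : MvPolynomial (Fin q × Fin (m + 1)) k) ∉ I)
    (M : Fin q → ℕ) : hf I M ≤ hf I (M + Pi.single j 1) := by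
  have := hp
  have : IsDomain (MvPolynomial (Fin q × Fin (m + 1)) k ⧸ I) := Ideal.Quotient.isDomain I
  have := H1_fd I (M + Pi.single j 1)
  have hne : Ideal.Quotient.mk I (X (j, 0)) ≠ 0 := by
    intro h
    exact hj (Ideal.Quotient.eq_zero_iff_mem.1 h)
  let φ : Vk I M →ₗ[k] Vk I (M + Pi.single j 1) :=
    (LinearMap.mulLeft k (Ideal.Quotient.mk I (X (j, 0)))).restrict
      (fun x hx => H1_mul (H1_X j 0) hx)
  have hφ : Function.Injective φ := by
    intro x y hxy
    apply Subtype.ext
    have h1 : Ideal.Quotient.mk I (X (j, 0)) * (x : MvPolynomial (Fin q × Fin (m + 1)) k ⧸ I) =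
        Ideal.Quotient.mk I (X (j, 0)) * (y : MvPolynomial (Fin q × Fin (m + 1)) k ⧸ I) :=
      congrArg Subtype.val hxy
    exact mul_left_cancel₀ hne h1
  have h2 := LinearMap.finrank_le_finrank_of_injective hφ
  exact h2

theorem H1_ge (hp : I.IsPrime) (hj : ∀ j, (X (j, 0) : MvPolynomial (Fin q × Fin (m + 1)) k) ∉ I)
    (l : Fin q) (t : Fin (n + 1) → Fin (m + 1))
    (hG : ∀ G : MvPolynomial (Fin (n + 1)) k,
      aeval (fun j => (X (l, t j) : MvPolynomial (Fin q × Fin (m + 1)) k)) G ∈ I → G = 0)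
    (M : Fin q → ℕ) : (M l) ^ n ≤ n.factorial * hf I M := by
  classical
  have := H1_fd I M
  have hmem : ∀ a : Finset.finsuppAntidiag (Finset.univ : Finset (Fin (n + 1))) (M l),
      Ideal.Quotient.mk I ((∏ j ∈ Finset.univ.erase l, (X (j, 0) : MvPolynomial (Fin q × Fin (m + 1)) k) ^ M j) *
        ∏ j, (X (l, t j) : MvPolynomial (Fin q × Fin (m + 1)) k) ^ a.1 j) ∈ Vk I M := by
    intro a
    exact Submodule.mem_map.2 ⟨_, H1_mon l t M a.1 (Finset.mem_finsuppAntidiag.1 a.2).1, rfl⟩
  have hP : (∏ j ∈ Finset.univ.erase l, (X (j, 0) : MvPolynomial (Fin q × Fin (m + 1)) k) ^ M j) ∉ I := by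
    intro h
    obtain ⟨j, _, h1⟩ := (hp.prod_mem_iff).1 h
    exact hj j (hp.mem_of_pow_mem _ h1)
  have hli : LinearIndependent k
      (fun a : Finset.finsuppAntidiag (Finset.univ : Finset (Fin (n + 1))) (M l) => (⟨_, hmem a⟩ : Vk I M)) := by
    rw [Fintype.linearIndependent_iff]
    intro g hg
    have h1 : ∑ a : Finset.finsuppAntidiag (Finset.univ : Finset (Fin (n + 1))) (M l),
        g a • Ideal.Quotient.mk I
          ((∏ j ∈ Finset.univ.erase l, (X (j, 0) : MvPolynomial (Fin q × Fin (m + 1)) k) ^ M j) *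
            ∏ j, (X (l, t j) : MvPolynomial (Fin q × Fin (m + 1)) k) ^ a.1 j) = 0 := by
      have h2 := congrArg (Vk I M).subtype hg
      rw [map_sum, map_zero] at h2
      exact h2
    have h3 : Ideal.Quotient.mk I
        ((∏ j ∈ Finset.univ.erase l, (X (j, 0) : MvPolynomial (Fin q × Fin (m + 1)) k) ^ M j) *
          aeval (fun j => (X (l, t j) : MvPolynomial (Fin q × Fin (m + 1)) k))
            (∑ a : Finset.finsuppAntidiag (Finset.univ : Finset (Fin (n + 1))) (M l), monomial a.1 (g a))) = 0 := by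
      rw [← h1, map_sum, Finset.mul_sum, map_sum]
      refine Finset.sum_congr rfl fun a _ => ?_
      have h4 : aeval (fun j => (X (l, t j) : MvPolynomial (Fin q × Fin (m + 1)) k)) (monomial a.1 (g a)) =
          g a • ∏ j, (X (l, t j) : MvPolynomial (Fin q × Fin (m + 1)) k) ^ a.1 j := by
        rw [aeval_monomial, Finsupp.prod_fintype _ _ (fun j => pow_zero _), Algebra.smul_def]
      rw [h4, mul_smul_comm]
      rfl
    have h5 := hG _ (((hp.mul_mem_iff_mem_or_mem).1 (Ideal.Quotient.eq_zero_iff_mem.1 h3)).resolve_left hP)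
    intro a
    have h6 := congrArg (coeff a.1) h5
    rw [coeff_sum, Finset.sum_eq_single a, coeff_monomial, if_pos rfl, coeff_zero] at h6
    · exact h6
    · intro b _ hb
      rw [coeff_monomial, if_neg (fun e => hb (Subtype.ext e))]
    · intro h
      exact absurd (Finset.mem_univ a) h
  have h7 := hli.fintype_card_le_finrank
  rw [Fintype.card_coe, Finset.card_finsuppAntidiag_nat_eq_choose, Finset.card_univ, Fintype.card_fin] at h7
  have h8 : (n + 1 + M l - 1).choose (M l) = (M l + n).choose n := by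
    rw [show n + 1 + M l - 1 = M l + n by omega]
    exact Nat.choose_symm_add
  rw [h8] at h7
  calc (M l) ^ n ≤ (M l + 1) ^ n := Nat.pow_le_pow_left (Nat.le_succ _) n
    _ ≤ (M l + 1).ascFactorial n := Nat.pow_succ_le_ascFactorial (M l + 1) n
    _ = n.factorial * (M l + n).choose n := Nat.ascFactorial_eq_factorial_mul_choose (M l) n
    _ ≤ n.factorial * hf I M := Nat.mul_le_mul_left _ h7

end UTB
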