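import Pool.Agent.Lib.MP_17a322_ntTB.Defs
import Pool.Agent.Lib.MP_17a322_ntTA.B2
import Pool.Agent.Lib.MP_17a322_ntTA.B3

/-!
Leaf H2: the upper bound for the Hilbert function on the diagonal.

PROOF. `J = Ik h ⊔ span (range f)` has no zero: by `B2_null` there is an `e` such that all monomials with all block
degrees at least `e` are in `J`. So for `ν ≥ ν₁ := e + d` and `g ∈ MH Ω m (ν, .., ν)`: `g ∈ J`, and (multihomogeneous components; see
`B3_dec` in `Pool/Agent/Lib/MP_17a322_ntTA/B3.lean`, the same with `n + 1` elements of the same degree instead of two) there are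
`A j ∈ MH Ω m (ν - d, .., ν - d)` with `g - ∑ j, f j * A j ∈ Ik h`. So `V_ν = ∑ j, f_j V_(ν - d)` in the quotient, where
`V_ν = Vk (Ik h) (fun _ => ν)`. For `s` steps: `V_ν = ∑_(|β| = s) f ^ β V_(ν - s d)` as long as `ν - (s - 1) d ≥ ν₁`. Let `ν = ν' + s d` with
`ν' < ν₁ + d` (`s ≤ ν`): `hf (ν) ≤ (number of the β : Fin (n + 1) → ℕ with sum s) * hf (ν') ≤ (s + 1) ^ n * C₀ ≤ 2 ^ n C₀ ν ^ n`, `C₀ = max_(ν' < ν₁ + d) hf (ν')`
(the number of the `β` is at most `(s + 1) ^ n`: `β_0` is determined by the others).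
In Lean: induction on `s`: there is a finite set `T_s` of at most `(s + 1) ^ n` elements (the products `f ^ β`) such that `V_(ν' + s d)` is contained in the
span of the products of `T_s` and a basis of `V_ν'`, `ν' ≥ ν₁ - d`..; use the set `{∏ j, f_j ^ (β j) | β ∈ Finset.piAntidiag univ s}` (`Finset.piAntidiag`); the
number of its elements: inject to `Fin n → Fin (s + 1)`. For `n = 0` the statement says that `hf` is bounded on the diagonal.
-/

set_option autoImplicit false

universe u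

namespace UTB

open MvPolynomial UTA

private def H2_w (q m : ℕ) : Fin q × Fin (m + 1) → (Fin q → ℕ) := fun z => Pi.single z.1 1

private theorem H2_weight {q m : ℕ} (μ : Fin q × Fin (m + 1) →₀ ℕ) :
    Finsupp.weight (H2_w q m) μ = fun i => ∑ l, μ (i, l) := by
  funext i
  rw [Finsupp.weight_apply, Finsupp.sum_fintype μ (fun z c => c • H2_w q m z) (fun z => zero_smul ℕ (H2_w q m z)),
    Finset.sum_apply, Fintype.sum_prod_type, Finset.sum_eq_single i]
  · refine Finset.sum_congr rfl fun l _ => ?_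
    simp [H2_w]
  · intro b _ hb
    refine Finset.sum_eq_zero fun l _ => ?_
    simp [H2_w, Ne.symm hb]
  · intro h
    exact absurd (Finset.mem_univ i) h

private theorem H2_mem {k : Type u} [Field k] {q m : ℕ} {M : Fin q → ℕ} {f : MvPolynomial (Fin q × Fin (m + 1)) k} :
    f ∈ MH k m M ↔ f ∈ weightedHomogeneousSubmodule k (H2_w q m) M := by
  rw [mem_weightedHomogeneousSubmodule]
  constructor
  · intro h d hd
    rw [H2_weight]
    funext i
    exact h d (mem_support_iff.2 hd) i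
  · intro h μ hμ i
    have h1 := h (mem_support_iff.1 hμ)
    rw [H2_weight] at h1
    exact congrFun h1 i

private theorem H2_dec {k : Type u} [Field k] {q m κ n : ℕ} {h : Fin κ → MvPolynomial (Fin q × Fin (m + 1)) k}
    (hh : ∀ j, ∃ d, h j ∈ MH k m d) {d : ℕ} (f : Fin (n + 1) → MvPolynomial (Fin q × Fin (m + 1)) k)
    (hf' : ∀ j, f j ∈ MH k m fun _ => d) {e : ℕ}
    (he : ∀ μ : (Fin q × Fin (m + 1)) →₀ ℕ, (∀ i, e ≤ ∑ l, μ (i, l)) → monomial μ 1 ∈ Ik h ⊔ Ideal.span (Set.range f))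
    {ν : ℕ} (hν : e ≤ ν + d) {g : MvPolynomial (Fin q × Fin (m + 1)) k} (hg : g ∈ MH k m fun _ : Fin q => ν + d) :
    ∃ A : Fin (n + 1) → MvPolynomial (Fin q × Fin (m + 1)) k, (∀ j, A j ∈ MH k m fun _ => ν) ∧
      g - ∑ j, f j * A j ∈ Ik h := by
  classical
  let _ : GradedAlgebra (weightedHomogeneousSubmodule k (H2_w q m)) := weightedGradedAlgebra k (H2_w q m)
  have hI : (Ik h).IsHomogeneous (weightedHomogeneousSubmodule k (H2_w q m)) := by
    refine Ideal.homogeneous_span _ _ ?_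
    rintro _ ⟨j, rfl⟩
    obtain ⟨d, hd⟩ := hh j
    exact ⟨d, H2_mem.1 hd⟩
  have hgJ : g ∈ Ik h ⊔ Ideal.span (Set.range f) := by
    rw [← g.support_sum_monomial_coeff]
    refine Ideal.sum_mem _ fun μ hμ => ?_
    have h1 : monomial μ (coeff μ g) = C (coeff μ g) * monomial μ 1 := by
      rw [C_mul_monomial, mul_one]
    rw [h1]
    refine Ideal.mul_mem_left _ _ (he μ fun i => ?_)
    rw [hg μ hμ i]
    exact hν
  obtain ⟨g₁, hg₁, e', he', hge⟩ := Submodule.mem_sup.1 hgJ
  obtain ⟨c, hc⟩ := Ideal.mem_span_range_iff_exists_fun.1 he'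
  set pr := GradedRing.proj (weightedHomogeneousSubmodule k (H2_w q m)) with hpr
  refine ⟨fun j => pr (fun _ => ν) (c j), fun j => H2_mem.2 ?_, ?_⟩
  · show pr (fun _ => ν) (c j) ∈ _
    rw [hpr, GradedRing.proj_apply]
    exact SetLike.coe_mem _
  · have e1 : ∀ j, pr (fun _ : Fin q => ν + d) (c j * f j) = pr (fun _ => ν) (c j) * f j := by
      intro j
      rw [hpr, GradedRing.proj_apply, GradedRing.proj_apply]
      exact DirectSum.coe_decompose_mul_add_of_right_mem _ (H2_mem.1 (hf' j))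
    have e2 : pr (fun _ : Fin q => ν + d) g = g := by
      rw [hpr, GradedRing.proj_apply]
      exact DirectSum.decompose_of_mem_same _ (H2_mem.1 hg)
    have e3 : g - ∑ j, f j * pr (fun _ => ν) (c j) = pr (fun _ : Fin q => ν + d) g₁ := by
      have e4 : pr (fun _ : Fin q => ν + d) g = pr (fun _ => ν + d) g₁ + ∑ j, pr (fun _ => ν) (c j) * f j := by
        rw [← hge, ← hc, map_add, map_sum]
        congr 1
        exact Finset.sum_congr rfl fun j _ => e1 j
      have e5 : ∑ j, f j * pr (fun _ => ν) (c j) = ∑ j, pr (fun _ => ν) (c j) * f j :=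
        Finset.sum_congr rfl fun j _ => mul_comm _ _
      rw [e5, ← e2, e4]
      exact add_sub_cancel_right _ _
    rw [e3, hpr, GradedRing.proj_apply]
    exact hI _ hg₁

private theorem H2_fd {k : Type u} [Field k] {q m : ℕ} (I : Ideal (MvPolynomial (Fin q × Fin (m + 1)) k))
    (M : Fin q → ℕ) : FiniteDimensional k (Vk I M) := by
  have := B3_fd (k := k) (q := q) (m := m) M
  unfold Vk
  infer_instance

private theorem H2_sup {k V : Type*} [Field k] [AddCommGroup V] [Module k V] {ι : Type*} (B : Finset ι)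
    (W : ι → Submodule k V) (c : ℕ) (hfin : ∀ β, FiniteDimensional k (W β)) (hW : ∀ β, Module.finrank k (W β) ≤ c) :
    FiniteDimensional k ↥(⨆ β ∈ B, W β) ∧ Module.finrank k ↥(⨆ β ∈ B, W β) ≤ B.card * c := by
  classical
  induction B using Finset.induction_on with
  | empty =>
    have h1 : (⨆ β ∈ (∅ : Finset ι), W β) = ⊥ := by simp
    rw [h1]
    exact ⟨inferInstance, by simp⟩
  | insert a B ha ih =>
    rw [Finset.iSup_insert]
    obtain ⟨h1, h2⟩ := ih
    have h3 := hfin a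
    refine ⟨inferInstance, (Submodule.finrank_add_le_finrank_add_finrank _ _).trans ?_⟩
    rw [Finset.card_insert_of_notMem ha, add_mul, one_mul, add_comm]
    exact Nat.add_le_add h2 (hW a)

private theorem H2_mulsup {k A : Type*} [Field k] [CommRing A] [Algebra k A] {n : ℕ} (U : Submodule k A)
    (φ : Fin (n + 1) → A) (s : ℕ) (j : Fin (n + 1)) {x : A}
    (hx : x ∈ ⨆ β ∈ Finset.piAntidiag (Finset.univ : Finset (Fin (n + 1))) s,
      U.map (LinearMap.mulLeft k (∏ j, φ j ^ β j))) :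
    φ j * x ∈ ⨆ β ∈ Finset.piAntidiag (Finset.univ : Finset (Fin (n + 1))) (s + 1),
      U.map (LinearMap.mulLeft k (∏ j, φ j ^ β j)) := by
  classical
  have h5 := Submodule.mem_map_of_mem (f := LinearMap.mulLeft k (φ j)) hx
  rw [Submodule.map_iSup] at h5
  have h6 : (⨆ β, (⨆ (_ : β ∈ Finset.piAntidiag (Finset.univ : Finset (Fin (n + 1))) s),
      U.map (LinearMap.mulLeft k (∏ j, φ j ^ β j))).map (LinearMap.mulLeft k (φ j))) ≤
        ⨆ β ∈ Finset.piAntidiag (Finset.univ : Finset (Fin (n + 1))) (s + 1),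
          U.map (LinearMap.mulLeft k (∏ j, φ j ^ β j)) := by
    refine iSup_le fun β => ?_
    rw [Submodule.map_iSup]
    refine iSup_le fun hβ => ?_
    rw [Finset.mem_piAntidiag] at hβ
    rw [← Submodule.map_comp]
    have hmem : β + Pi.single j 1 ∈ Finset.piAntidiag (Finset.univ : Finset (Fin (n + 1))) (s + 1) := by
      rw [Finset.mem_piAntidiag]
      refine ⟨?_, fun l _ => Finset.mem_univ l⟩
      have h8 : Finset.univ.sum (β + Pi.single j 1) = Finset.univ.sum β + ∑ l, (Pi.single j 1 : Fin (n + 1) → ℕ) l := by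
        rw [← Finset.sum_add_distrib]
        rfl
      rw [h8, hβ.1, Finset.sum_pi_single', if_pos (Finset.mem_univ _)]
    have heq : LinearMap.mulLeft k (φ j) ∘ₗ LinearMap.mulLeft k (∏ j, φ j ^ β j) =
        LinearMap.mulLeft k (∏ l, φ l ^ (β + Pi.single j 1 : Fin (n + 1) → ℕ) l) := by
      ext x
      rw [LinearMap.comp_apply, LinearMap.mulLeft_apply, LinearMap.mulLeft_apply, LinearMap.mulLeft_apply, ← mul_assoc]
      congr 1
      have h7 : ∀ l, φ l ^ (β + Pi.single j 1 : Fin (n + 1) → ℕ) l = φ l ^ β l * (if l = j then φ l else 1) := by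
        intro l
        rw [Pi.add_apply, pow_add]
        congr 1
        by_cases hl : l = j
        · rw [hl, Pi.single_eq_same, pow_one, if_pos rfl]
        · rw [Pi.single_eq_of_ne hl, pow_zero, if_neg hl]
      simp only [h7]
      rw [Finset.prod_mul_distrib, Finset.prod_ite_eq' Finset.univ, if_pos (Finset.mem_univ _), mul_comm]
    rw [heq]
    exact le_iSup₂ (f := fun β (_ : β ∈ Finset.piAntidiag (Finset.univ : Finset (Fin (n + 1))) (s + 1)) =>
      U.map (LinearMap.mulLeft k (∏ j, φ j ^ β j))) (β + Pi.single j 1) hmem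
  exact h6 h5

private theorem H2_step {k : Type u} [Field k] {q m κ n : ℕ} {h : Fin κ → MvPolynomial (Fin q × Fin (m + 1)) k}
    (hh : ∀ j, ∃ d, h j ∈ MH k m d) {d : ℕ} (f : Fin (n + 1) → MvPolynomial (Fin q × Fin (m + 1)) k)
    (hf' : ∀ j, f j ∈ MH k m fun _ => d) {e : ℕ}
    (he : ∀ μ : (Fin q × Fin (m + 1)) →₀ ℕ, (∀ i, e ≤ ∑ l, μ (i, l)) → monomial μ 1 ∈ Ik h ⊔ Ideal.span (Set.range f))
    {ν : ℕ} (hν : e ≤ ν + d) (s : ℕ) :
    Vk (Ik h) (fun _ : Fin q => ν + s * d) ≤ ⨆ β ∈ Finset.piAntidiag (Finset.univ : Finset (Fin (n + 1))) s,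
      (Vk (Ik h) (fun _ : Fin q => ν)).map (LinearMap.mulLeft k (∏ j, (Ideal.Quotient.mkₐ k (Ik h)) (f j) ^ β j)) := by
  classical
  induction s with
  | zero =>
    intro v hv
    rw [zero_mul, add_zero] at hv
    refine Submodule.mem_iSup_of_mem 0 (Submodule.mem_iSup_of_mem (by simp) ⟨v, hv, ?_⟩)
    simp
  | succ s ih =>
    rintro _ ⟨g, hg, rfl⟩
    have hg' : g ∈ MH k m fun _ : Fin q => (ν + s * d) + d := by
      have h1 : (fun _ : Fin q => (ν + s * d) + d) = fun _ : Fin q => ν + (s + 1) * d := by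
        funext _
        ring
      rw [h1]
      exact hg
    obtain ⟨A, hA, hgA⟩ := H2_dec hh f hf' he (ν := ν + s * d) (by omega) hg'
    have h2 : (Ideal.Quotient.mkₐ k (Ik h)).toLinearMap g =
        ∑ j, Ideal.Quotient.mkₐ k (Ik h) (f j) * Ideal.Quotient.mkₐ k (Ik h) (A j) := by
      show Ideal.Quotient.mkₐ k (Ik h) g = _
      have h3 : Ideal.Quotient.mkₐ k (Ik h) (g - ∑ j, f j * A j) = 0 := by
        rw [Ideal.Quotient.mkₐ_eq_mk]
        exact Ideal.Quotient.eq_zero_iff_mem.2 hgA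
      rw [map_sub, sub_eq_zero, map_sum] at h3
      rw [h3]
      exact Finset.sum_congr rfl fun j _ => map_mul _ _ _
    rw [h2]
    refine Submodule.sum_mem _ fun j _ => ?_
    have h4 : Ideal.Quotient.mkₐ k (Ik h) (A j) ∈ Vk (Ik h) (fun _ : Fin q => ν + s * d) := ⟨A j, hA j, rfl⟩
    exact H2_mulsup _ _ s j (ih h4)

private theorem H2_card (n s : ℕ) :
    (Finset.piAntidiag (Finset.univ : Finset (Fin (n + 1))) s).card ≤ (s + 1) ^ n := by
  classical
  have h1 : (Fintype.piFinset fun _ : Fin n => Finset.range (s + 1)).card = (s + 1) ^ n := by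
    rw [Fintype.card_piFinset, Finset.prod_const, Finset.card_univ, Fintype.card_fin, Finset.card_range]
  rw [← h1]
  refine Finset.card_le_card_of_injOn (fun β => fun i => β i.succ) ?_ ?_
  · intro β hβ
    rw [Finset.mem_coe, Finset.mem_piAntidiag] at hβ
    rw [Finset.mem_coe, Fintype.mem_piFinset]
    intro i
    rw [Finset.mem_range, Nat.lt_succ_iff, ← hβ.1]
    exact Finset.single_le_sum (f := β) (fun _ _ => Nat.zero_le _) (Finset.mem_univ _)
  · intro β hβ γ hγ hβγ
    rw [Finset.mem_coe, Finset.mem_piAntidiag] at hβ hγ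
    have h2 : ∀ i : Fin n, β i.succ = γ i.succ := fun i => congrFun hβγ i
    have h3 := hβ.1.trans hγ.1.symm
    rw [Fin.sum_univ_succ, Fin.sum_univ_succ, Finset.sum_congr rfl fun i _ => h2 i] at h3
    funext i
    refine Fin.cases ?_ (fun j => h2 j) i
    exact Nat.add_right_cancel h3

theorem H2_le {Ω : Type u} [Field Ω] [IsAlgClosed Ω] {q m κ n : ℕ}
    {h : Fin κ → MvPolynomial (Fin q × Fin (m + 1)) Ω} (hh : ∀ j, ∃ d, h j ∈ MH Ω m d) {d : ℕ}
    (hd : 0 < d) (f : Fin (n + 1) → MvPolynomial (Fin q × Fin (m + 1)) Ω)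
    (hf' : ∀ j, f j ∈ MH Ω m fun _ => d)
    (hz : ∀ y : Fin q → Fin (m + 1) → Ω, InZ h y →
      ∃ j, aeval (fun z : Fin q × Fin (m + 1) => y z.1 z.2) (f j) ≠ 0) :
    ∃ C : ℝ, ∀ ν : ℕ, 1 ≤ ν → (hf (Ik h) (fun _ : Fin q => ν) : ℝ) ≤ C * (ν : ℝ) ^ n := by
  classical
  obtain ⟨e, he⟩ := B2_null (Ik h ⊔ Ideal.span (Set.range f)) (fun y hy hJ => by
    obtain ⟨j, hj⟩ := hz y ⟨hy, fun j => by
      have h1 := hJ _ (Ideal.mem_sup_left (Ideal.subset_span ⟨j, rfl⟩))
      rw [← coe_aeval_eq_eval] at h1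
      exact h1⟩
    apply hj
    have h1 := hJ _ (Ideal.mem_sup_right (Ideal.subset_span ⟨j, rfl⟩))
    rw [← coe_aeval_eq_eval] at h1
    exact h1)
  set C₀ : ℕ := ∑ ν ∈ Finset.range (e + d), hf (Ik h) (fun _ : Fin q => ν) with hC₀
  have hC : ∀ ν < e + d, hf (Ik h) (fun _ : Fin q => ν) ≤ C₀ := fun ν hν =>
    Finset.single_le_sum (f := fun ν => hf (Ik h) (fun _ : Fin q => ν)) (fun _ _ => Nat.zero_le _)
      (Finset.mem_range.2 hν)
  have hmain : ∀ ν : ℕ, 1 ≤ ν → hf (Ik h) (fun _ : Fin q => ν) ≤ (2 * ν) ^ n * C₀ := by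
    intro ν hν
    set s : ℕ := (ν - e) / d with hs
    have h1 : s * d ≤ ν - e := Nat.div_mul_le_self _ _
    have h2 : ν - e < s * d + d := by
      have := Nat.lt_div_mul_add (a := ν - e) hd
      exact this
    have h3 : s ≤ ν := (Nat.div_le_self _ _).trans (Nat.sub_le _ _)
    obtain ⟨ν', hν'⟩ : ∃ ν', ν = ν' + s * d := ⟨ν - s * d, by omega⟩
    have h4 : ν' < e + d := by omega
    have h5 : hf (Ik h) (fun _ : Fin q => ν) ≤ (s + 1) ^ n * hf (Ik h) (fun _ : Fin q => ν') := by
      rcases Nat.eq_zero_or_pos s with h0 | h0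
      · rw [h0, zero_mul, add_zero] at hν'
        rw [h0, zero_add, one_pow, one_mul, hν']
      · have h6 : e ≤ ν' + d := by
          have : 1 * d ≤ s * d := Nat.mul_le_mul_right d h0
          omega
        have h7 := H2_step hh f hf' he h6 s
        rw [← hν'] at h7
        have h8 := H2_sup (Finset.piAntidiag (Finset.univ : Finset (Fin (n + 1))) s) (fun β =>
          (Vk (Ik h) (fun _ : Fin q => ν')).map
            (LinearMap.mulLeft Ω (∏ j, (Ideal.Quotient.mkₐ Ω (Ik h)) (f j) ^ β j)))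
          (hf (Ik h) (fun _ : Fin q => ν')) (fun β => by
            have := H2_fd (Ik h) (fun _ : Fin q => ν')
            infer_instance) (fun β => by
            have := H2_fd (Ik h) (fun _ : Fin q => ν')
            exact Submodule.finrank_map_le _ _)
        have := h8.1
        have h9 : hf (Ik h) (fun _ : Fin q => ν) ≤ _ := Submodule.finrank_mono h7
        exact h9.trans (h8.2.trans (Nat.mul_le_mul_right _ (H2_card n s)))
    refine h5.trans (Nat.mul_le_mul (Nat.pow_le_pow_left (by omega) n) (hC ν' h4))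
  refine ⟨2 ^ n * C₀, fun ν hν => ?_⟩
  have h1 : ((hf (Ik h) (fun _ : Fin q => ν) : ℕ) : ℝ) ≤ (((2 * ν) ^ n * C₀ : ℕ) : ℝ) := by
    exact_mod_cast hmain ν hν
  refine h1.trans (le_of_eq ?_)
  push_cast
  rw [mul_pow]
  ring

end UTB
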