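import Pool.Agent.Lib.MP_17a322_ntTB.Defs
import Pool.Agent.Lib.MP_17a322_ntTA.B1
import Pool.Agent.Lib.MP_17a322_ntTA.B3

/-!
Leaf H3: comparison of the Hilbert functions over `k` and `Ω`; a basis of monomials.

PROOF. `H3_mon`: the classes of the monomials of multidegree `M` span `Vk (Ik h) M` (finitely many; `f = ∑ coeff`), so a
subset is a basis (`exists_linearIndependent` / `Basis` from a spanning set): `mon : Fin r → ..`, `r = hf (Ik h) M`. See `B7.lean` in
`Pool/Agent/Lib/MP_17a322_ntTA` (B7 constructs the same `mon`).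
`H3_le`: the monomials of `H3_mon` are independent modulo `IΩ h Ω` by `B1_li`, so their classes are `r` independent elements of
`Vk (IΩ h Ω) M`.
-/

set_option autoImplicit false

universe u

namespace UTB

open MvPolynomial UTA

section

variable {k : Type u} [Field k] {q m κ : ℕ}

private theorem H3_mono {M : Fin q → ℕ} {μ : (Fin q × Fin (m + 1)) →₀ ℕ} (hμ : ∀ i, ∑ l, μ (i, l) = M i) (c : k) :
    (monomial μ c : MvPolynomial (Fin q × Fin (m + 1)) k) ∈ MH k m M := by
  intro ν hν i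
  have h1 := support_monomial_subset hν
  rw [Finset.mem_singleton] at h1
  rw [h1]
  exact hμ i

private theorem H3_span (I : Ideal (MvPolynomial (Fin q × Fin (m + 1)) k)) (M : Fin q → ℕ) :
    Submodule.span k (Set.range fun μ : {μ : (Fin q × Fin (m + 1)) →₀ ℕ // ∀ i, ∑ l, μ (i, l) = M i} =>
      Ideal.Quotient.mk I (monomial μ.1 (1 : k))) = (MH k m M).map (Ideal.Quotient.mkₐ k I).toLinearMap := by
  apply le_antisymm
  · rw [Submodule.span_le]
    rintro _ ⟨μ, rfl⟩
    exact ⟨monomial μ.1 1, H3_mono μ.2 1, rfl⟩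
  · rintro _ ⟨f, hf, rfl⟩
    have h0 : (Ideal.Quotient.mkₐ k I).toLinearMap f =
        ∑ μ ∈ f.support, (Ideal.Quotient.mkₐ k I).toLinearMap (monomial μ (coeff μ f)) := by
      conv_lhs => rw [f.as_sum]
      rw [map_sum]
    rw [h0]
    refine Submodule.sum_mem _ fun μ hμ => ?_
    have h1 : (Ideal.Quotient.mkₐ k I).toLinearMap (monomial μ (coeff μ f)) =
        coeff μ f • Ideal.Quotient.mk I (monomial μ (1 : k)) := by
      have h2 : (monomial μ (coeff μ f) : MvPolynomial (Fin q × Fin (m + 1)) k) = coeff μ f • monomial μ 1 := by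
        rw [smul_monomial, smul_eq_mul, mul_one]
      rw [h2, map_smul]
      rfl
    rw [h1]
    exact Submodule.smul_mem _ _ (Submodule.subset_span ⟨⟨μ, hf μ hμ⟩, rfl⟩)

private theorem H3_fin {E : Type*} {ι : Type*} [AddCommGroup E] [Module k E] (v : ι → E) (V : Submodule k E)
    (hV : Submodule.span k (Set.range v) = V) (hf : FiniteDimensional k V) :
    ∃ (a : Fin (Module.finrank k V) → ι) (B : Module.Basis (Fin (Module.finrank k V)) k V), ∀ l, (B l : E) = v (a l) := by
  obtain ⟨τ, a, -, hsp, hli⟩ := exists_linearIndependent' k v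
  have h1 : Submodule.span k (Set.range (v ∘ a)) = V := hsp.trans hV
  subst h1
  have h2 : Finite τ := Module.Finite.finite_basis (Module.Basis.span hli)
  let e : τ ≃ Fin (Module.finrank k (Submodule.span k (Set.range (v ∘ a)))) :=
    Finite.equivFinOfCardEq (Module.finrank_eq_nat_card_basis (Module.Basis.span hli)).symm
  refine ⟨a ∘ e.symm, (Module.Basis.span hli).reindex e, fun l => ?_⟩
  rw [Module.Basis.reindex_apply, Module.Basis.span_apply]
  rfl

end

theorem H3_mon {k : Type u} [Field k] {q m : ℕ} (I : Ideal (MvPolynomial (Fin q × Fin (m + 1)) k))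
    (M : Fin q → ℕ) : ∃ mon : Fin (hf I M) → (Fin q × Fin (m + 1)) →₀ ℕ,
      (∀ l i, ∑ t, mon l (i, t) = M i) ∧
      (∀ u : Fin (hf I M) → k,
        ∑ l, u l • (monomial (mon l) 1 : MvPolynomial (Fin q × Fin (m + 1)) k) ∈ I → u = 0) ∧
      ∀ f ∈ MH k m M, ∃ u : Fin (hf I M) → k,
        f - ∑ l, u l • (monomial (mon l) 1 : MvPolynomial (Fin q × Fin (m + 1)) k) ∈ I := by
  have hfd0 := B3_fd (k := k) (m := m) M
  have hfd : FiniteDimensional k ((MH k m M).map (Ideal.Quotient.mkₐ k I).toLinearMap) := Module.Finite.map _ _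
  obtain ⟨a, B, hB⟩ := H3_fin (k := k) _ _ (H3_span I M) hfd
  have h2 : ∀ (u : Fin (hf I M) → k),
      ((∑ l, u l • B l : (MH k m M).map (Ideal.Quotient.mkₐ k I).toLinearMap) :
        MvPolynomial (Fin q × Fin (m + 1)) k ⧸ I) =
      Ideal.Quotient.mk I (∑ l, u l • (monomial (a l).1 1 : MvPolynomial (Fin q × Fin (m + 1)) k)) := by
    intro u
    rw [Submodule.coe_sum, map_sum]
    refine Finset.sum_congr rfl fun l _ => ?_
    rw [Submodule.coe_smul, hB]
    exact (map_smul (Ideal.Quotient.mkₐ k I) (u l) (monomial (a l).1 (1 : k))).symm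
  refine ⟨fun l => (a l).1, fun l => (a l).2, fun u hu => ?_, fun f hf1 => ?_⟩
  · have h1 : ∑ l, u l • B l = 0 := by
      apply Subtype.ext
      rw [h2 u]
      exact Ideal.Quotient.eq_zero_iff_mem.2 hu
    funext l
    exact Fintype.linearIndependent_iff.1 B.linearIndependent u h1 l
  · have h3 : Ideal.Quotient.mk I f ∈ (MH k m M).map (Ideal.Quotient.mkₐ k I).toLinearMap := ⟨f, hf1, rfl⟩
    refine ⟨B.equivFun ⟨Ideal.Quotient.mk I f, h3⟩, ?_⟩
    rw [← Ideal.Quotient.eq, ← h2]
    exact (congrArg Subtype.val (B.sum_equivFun ⟨Ideal.Quotient.mk I f, h3⟩)).symm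

theorem H3_le {k : Type u} [Field k] {q m κ : ℕ} (h : Fin κ → MvPolynomial (Fin q × Fin (m + 1)) k)
    (Ω : Type u) [Field Ω] [Algebra k Ω] (M : Fin q → ℕ) : hf (Ik h) M ≤ hf (IΩ h Ω) M := by
  obtain ⟨mon, hdeg, hli, -⟩ := H3_mon (Ik h) M
  have hfd0 := B3_fd (k := Ω) (m := m) M
  have hfd : FiniteDimensional Ω ((MH Ω m M).map (Ideal.Quotient.mkₐ Ω (IΩ h Ω)).toLinearMap) := Module.Finite.map _ _
  let w : Fin (hf (Ik h) M) → (MH Ω m M).map (Ideal.Quotient.mkₐ Ω (IΩ h Ω)).toLinearMap := fun l =>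
    ⟨Ideal.Quotient.mkₐ Ω (IΩ h Ω) (monomial (mon l) 1), ⟨monomial (mon l) 1, H3_mono (hdeg l) 1, rfl⟩⟩
  have hw : LinearIndependent Ω w := by
    rw [Fintype.linearIndependent_iff]
    intro u hu l
    have h1 : ∑ c, u c • map (algebraMap k Ω) (monomial (mon c) (1 : k)) ∈ IΩ h Ω := by
      rw [← Ideal.Quotient.eq_zero_iff_mem, map_sum]
      have h3 := congrArg Subtype.val hu
      rw [Submodule.coe_sum] at h3
      refine Eq.trans (Finset.sum_congr rfl fun c _ => ?_) h3
      rw [map_monomial, map_one]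
      exact map_smul (Ideal.Quotient.mkₐ Ω (IΩ h Ω)) (u c) (monomial (mon c) (1 : Ω))
    exact congrFun (B1_li h (fun c => monomial (mon c) (1 : k)) hli u h1) l
  have h2 := hw.fintype_card_le_finrank
  rw [Fintype.card_fin] at h2
  exact h2

end UTB
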