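import Pool.Agent.Lib.MP_17a322_ntTB.H1
import Pool.Agent.Lib.MP_17a322_ntTB.H2
import Pool.Agent.Lib.MP_17a322_ntTB.H3
import Pool.Agent.Lib.MP_17a322_ntTA.B6

/-!
Leaf H5: the bounds for the Hilbert function over `k`.

PROOF. `I = Ik h` is prime (`B1_prime`). `H5_X`: an element of `Ik h` vanishes at the zeros of the `h j` (`Submodule.span_induction` or
`Ideal.span_le` with the kernel of `aeval y`), and `X (i, 0)` does not vanish at the point of `hnz`.
`H5_lt`: by `H1_step` it is enough that the dimensions are not equal. If they were, then `X (i, 0) * Vk I M' = Vk I (M' + e_i)` (the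
multiplication by `X (i, 0)` is injective, equal finite dimensions), so every monomial `μ` of multidegree `M' + e_i` is
`X (i, 0) g` modulo `I` and vanishes at the point `y` with `y i 0 = 0` of `hne`; but for `μ = ∑ j, single (j, t j) ((M' + e_i) j)` with `y j (t j) ≠ 0`
it does not vanish.
`H5_lo`: `H1_ge`; its `hG` over `k` follows from `hbig` over `Ω`: if `G(X (i, t_j)) ∈ Ik h` then `(map G)(X (i, t_j)) = map (G(X (i, t_j))) ∈ IΩ h Ω`
(`B1_mem`), so `map G = 0` and `G = 0` (`map_injective`).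
`H5_up`: `H2_le` for `Ω` and the polynomials `map (algebraMap k Ω) (h j)` (`IΩ h Ω = Ik (fun j => map (algebraMap k Ω) (h j))` by `rfl`; multidegrees: the
support of a `map` is contained in the support; `InZ` for them is `InZ h`: `aeval_map_algebraMap`), and `H3_le`.
-/

set_option autoImplicit false

universe u

namespace UTB

open MvPolynomial UTA

private theorem H5_zero {k : Type u} [Field k] {q m κ : ℕ} {h : Fin κ → MvPolynomial (Fin q × Fin (m + 1)) k}
    {Ω : Type u} [Field Ω] [Algebra k Ω] {y : Fin q → Fin (m + 1) → Ω} (hy : InZ h y)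
    {f : MvPolynomial (Fin q × Fin (m + 1)) k} (hf : f ∈ Ik h) :
    aeval (fun z : Fin q × Fin (m + 1) => y z.1 z.2) f = 0 := by
  have h1 : Ik h ≤ RingHom.ker (aeval (R := k) (fun z : Fin q × Fin (m + 1) => y z.1 z.2)).toRingHom := by
    unfold Ik
    rw [Ideal.span_le]
    rintro _ ⟨j, rfl⟩
    exact hy.2 j
  exact h1 hf

private theorem H5_mon {k : Type u} [Field k] {q m : ℕ} (M : Fin q → ℕ) (t : Fin q → Fin (m + 1)) :
    (monomial (∑ j, Finsupp.single (j, t j) (M j)) (1 : k) : MvPolynomial (Fin q × Fin (m + 1)) k) ∈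
      MH k m M := by
  classical
  intro μ hμ i
  rw [Finset.mem_singleton.1 (support_monomial_subset hμ)]
  simp only [Finsupp.finsetSum_apply]
  rw [Finset.sum_comm, Finset.sum_eq_single i]
  · rw [Finset.sum_eq_single (t i)]
    · rw [Finsupp.single_eq_same]
    · intro b _ hb
      rw [Finsupp.single_apply, if_neg]
      intro h
      exact hb (Prod.ext_iff.1 h).2.symm
    · intro h
      exact absurd (Finset.mem_univ _) h
  · intro j _ hj
    refine Finset.sum_eq_zero fun b _ => ?_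
    rw [Finsupp.single_apply, if_neg]
    intro h
    exact hj (Prod.ext_iff.1 h).1
  · intro h
    exact absurd (Finset.mem_univ _) h

private theorem H5_map {k : Type u} [Field k] {q m n : ℕ} (Ω : Type u) [Field Ω] [Algebra k Ω]
    (z : Fin (n + 1) → Fin q × Fin (m + 1)) (G : MvPolynomial (Fin (n + 1)) k) :
    aeval (fun j => (X (z j) : MvPolynomial (Fin q × Fin (m + 1)) Ω)) (map (algebraMap k Ω) G) =
      map (algebraMap k Ω) (aeval (fun j => (X (z j) : MvPolynomial (Fin q × Fin (m + 1)) k)) G) := by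
  induction G using MvPolynomial.induction_on with
  | C a => rw [map_C, aeval_C, aeval_C, algebraMap_eq, algebraMap_eq, map_C]
  | add p q hp hq => rw [map_add, map_add, map_add, map_add, hp, hq]
  | mul_X p j hp => rw [map_mul, map_mul, map_mul, map_mul, hp, map_X, aeval_X, aeval_X, map_X]

theorem H5_X {k : Type u} [Field k] {q m κ : ℕ} {h : Fin κ → MvPolynomial (Fin q × Fin (m + 1)) k}
    (Ω : Type u) [Field Ω] [Algebra k Ω] (i : Fin q)
    (hnz : ∃ y : Fin q → Fin (m + 1) → Ω, InZ h y ∧ y i 0 ≠ 0) :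
    (X (i, 0) : MvPolynomial (Fin q × Fin (m + 1)) k) ∉ Ik h := by
  intro hX
  obtain ⟨y, hy, hy0⟩ := hnz
  have h1 := H5_zero hy hX
  rw [aeval_X] at h1
  exact hy0 h1

theorem H5_lt {k : Type u} [Field k] {q m κ : ℕ} {h : Fin κ → MvPolynomial (Fin q × Fin (m + 1)) k}
    (Ω : Type u) [Field Ω] [Algebra k Ω] (hp : (IΩ h Ω).IsPrime) (i : Fin q)
    (hne : ∃ y : Fin q → Fin (m + 1) → Ω, InZ h y ∧ y i 0 = 0)
    (hnz : ∃ y : Fin q → Fin (m + 1) → Ω, InZ h y ∧ y i 0 ≠ 0) (M' : Fin q → ℕ) :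
    hf (Ik h) M' < hf (Ik h) (M' + Pi.single i 1) := by
  classical
  have hpr : (Ik h).IsPrime := B1_prime h hp
  have hX := H5_X Ω i hnz
  have h1 := H1_step hpr i hX M'
  refine lt_of_le_of_ne h1 fun heq => ?_
  have := H1_fd (Ik h) M'
  have := H1_fd (Ik h) (M' + Pi.single i 1)
  let f : Vk (Ik h) M' →ₗ[k] Vk (Ik h) (M' + Pi.single i 1) :=
    ((LinearMap.mulLeft k (Ideal.Quotient.mk (Ik h) (X (i, 0)))).domRestrict
      (Vk (Ik h) M')).codRestrict (Vk (Ik h) (M' + Pi.single i 1))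
      (fun x => H1_mul (X_mem_MH i 0) x.2)
  have hinj : Function.Injective f := by
    intro a b hab
    have h2 : Ideal.Quotient.mk (Ik h) (X (i, 0)) * (a : MvPolynomial (Fin q × Fin (m + 1)) k ⧸ Ik h) =
        Ideal.Quotient.mk (Ik h) (X (i, 0)) * (b : MvPolynomial (Fin q × Fin (m + 1)) k ⧸ Ik h) :=
      congrArg Subtype.val hab
    have : IsDomain (MvPolynomial (Fin q × Fin (m + 1)) k ⧸ Ik h) := Ideal.Quotient.isDomain (Ik h)
    have h3 : Ideal.Quotient.mk (Ik h) (X (i, 0)) ≠ 0 := fun h0 => hX ((Ideal.Quotient.eq_zero_iff_mem).1 h0)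
    exact Subtype.ext (mul_left_cancel₀ h3 h2)
  have heq' : Module.finrank k (Vk (Ik h) M') = Module.finrank k (Vk (Ik h) (M' + Pi.single i 1)) := heq
  have hsurj : Function.Surjective f :=
    (LinearMap.injective_iff_surjective_of_finrank_eq_finrank heq').1 hinj
  obtain ⟨y, hy, hy0⟩ := hne
  have ht : ∀ j, ∃ t, y j t ≠ 0 := fun j => Function.ne_iff.1 (hy.1 j)
  choose t ht using ht
  have hμ := H5_mon (k := k) (m := m) (M' + Pi.single i 1) t
  obtain ⟨⟨x, hx⟩, hfx⟩ := hsurj ⟨Ideal.Quotient.mk (Ik h) (monomial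
    (∑ j, Finsupp.single (j, t j) ((M' + Pi.single i 1 : Fin q → ℕ) j)) 1), ⟨_, hμ, rfl⟩⟩
  obtain ⟨g, hg, rfl⟩ := hx
  have h4 : Ideal.Quotient.mk (Ik h) (X (i, 0)) * Ideal.Quotient.mk (Ik h) g =
      Ideal.Quotient.mk (Ik h) (monomial (∑ j, Finsupp.single (j, t j) ((M' + Pi.single i 1 : Fin q → ℕ) j)) 1) :=
    congrArg Subtype.val hfx
  rw [← map_mul] at h4
  have h5 := H5_zero hy ((Ideal.Quotient.eq).1 h4)
  rw [map_sub, map_mul, aeval_X, hy0, zero_mul, zero_sub, neg_eq_zero, aeval_monomial, map_one, one_mul] at h5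
  rw [Finsupp.prod_fintype _ _ (fun z => pow_zero _), Finset.prod_eq_zero_iff] at h5
  obtain ⟨⟨a, b⟩, -, hab⟩ := h5
  have h6 : y a b = 0 := by
    by_contra h7
    exact pow_ne_zero _ h7 hab
  have h8 : (∑ j, Finsupp.single (j, t j) ((M' + Pi.single i 1 : Fin q → ℕ) j) : Fin q × Fin (m + 1) →₀ ℕ) (a, b) = 0 := by
    rw [Finsupp.finsetSum_apply]
    refine Finset.sum_eq_zero fun j _ => ?_
    rw [Finsupp.single_apply, if_neg]
    intro h9
    obtain ⟨h10, h11⟩ := Prod.ext_iff.1 h9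
    simp only at h10 h11
    subst h10
    subst h11
    exact ht j h6
  rw [h8, pow_zero] at hab
  exact one_ne_zero hab

theorem H5_lo {k : Type u} [Field k] {q m κ n : ℕ}
    {h : Fin κ → MvPolynomial (Fin q × Fin (m + 1)) k} (Ω : Type u) [Field Ω] [Algebra k Ω]
    (hp : (IΩ h Ω).IsPrime)
    (hbig : ∀ i, ∃ t : Fin (n + 1) → Fin (m + 1), ∀ G : MvPolynomial (Fin (n + 1)) Ω,
      aeval (fun j => (X (i, t j) : MvPolynomial (Fin q × Fin (m + 1)) Ω)) G ∈ IΩ h Ω → G = 0)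
    (hnz : ∀ i, ∃ y : Fin q → Fin (m + 1) → Ω, InZ h y ∧ y i 0 ≠ 0) (M : Fin q → ℕ) (l : Fin q) :
    (M l) ^ n ≤ n.factorial * hf (Ik h) M := by
  have hpr : (Ik h).IsPrime := B1_prime h hp
  obtain ⟨t, ht⟩ := hbig l
  refine H1_ge hpr (fun j => H5_X Ω j (hnz j)) l t (fun G hG => ?_) M
  have h1 : aeval (fun j => (X (l, t j) : MvPolynomial (Fin q × Fin (m + 1)) Ω))
      (map (algebraMap k Ω) G) ∈ IΩ h Ω := by
    rw [H5_map]
    exact (B1_mem h _).2 hG
  have h2 := ht _ h1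
  refine map_injective (algebraMap k Ω) (algebraMap k Ω).injective ?_
  rw [h2, map_zero]

theorem H5_up {k : Type u} [Field k] {q m κ n : ℕ}
    {h : Fin κ → MvPolynomial (Fin q × Fin (m + 1)) k} (hh : ∀ j, ∃ d, h j ∈ MH k m d)
    (Ω : Type u) [Field Ω] [IsAlgClosed Ω] [Algebra k Ω]
    (hle : ∃ d : ℕ, 0 < d ∧ ∃ f : Fin (n + 1) → MvPolynomial (Fin q × Fin (m + 1)) Ω,
      (∀ j, f j ∈ MH Ω m fun _ => d) ∧ ∀ y : Fin q → Fin (m + 1) → Ω, InZ h y →
        ∃ j, aeval (fun z : Fin q × Fin (m + 1) => y z.1 z.2) (f j) ≠ 0) :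
    ∃ C : ℝ, ∀ ν : ℕ, 1 ≤ ν → (hf (Ik h) (fun _ : Fin q => ν) : ℝ) ≤ C * (ν : ℝ) ^ n := by
  obtain ⟨d, hd, f, hf', hz⟩ := hle
  have h1 : ∀ j, ∃ d, map (algebraMap k Ω) (h j) ∈ MH Ω m d := by
    intro j
    obtain ⟨d, hd⟩ := hh j
    exact ⟨d, fun μ hμ => hd μ (support_map_subset _ _ hμ)⟩
  have h2 : ∀ y : Fin q → Fin (m + 1) → Ω, InZ (fun j => map (algebraMap k Ω) (h j)) y →
      ∃ j, aeval (fun z : Fin q × Fin (m + 1) => y z.1 z.2) (f j) ≠ 0 := by
    intro y hy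
    refine hz y ⟨hy.1, fun j => ?_⟩
    have h3 := hy.2 j
    rwa [aeval_map_algebraMap] at h3
  obtain ⟨C, hC⟩ := H2_le (h := fun j => map (algebraMap k Ω) (h j)) h1 hd f hf' h2
  refine ⟨C, fun ν hν => le_trans ?_ (hC ν hν)⟩
  exact Nat.cast_le.2 (H3_le h Ω _)

end UTB
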